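import Pool.Agent.X27.Cln.Dih

set_option autoImplicit false
set_option linter.unusedSectionVars false

/-! `μ = 0` only depends on the isomorphism class of the field. -/

namespace Pool.Agent.X27.Cln

open NumberField IntermediateField

/-- For odd `p`, `μ = 0` for the cyclotomic `ℤ_p`-extension of `F`: the `p`-adic valuation of the class number of
`F ℚ_m` is `O(m)`, where `ℚ_m` is the subfield of degree `p^m` of the field of the `p^{m+1}`-th roots of unity. -/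
def MuZero (p : ℕ) (F : IntermediateField ℚ ℂ) : Prop :=
  ∃ C : ℕ, ∀ m : ℕ, ∀ E : IntermediateField ℚ ℂ,
    E ≤ IntermediateField.adjoin ℚ {z : ℂ | z ^ (p ^ (m + 1)) = 1} →
    Module.finrank ℚ E = p ^ m →
    padicValNat p (Nat.card (ClassGroup (𝓞 ↥(F ⊔ E)))) ≤ C * (m + 1)

theorem mu_sub {p : ℕ} (hp : p.Prime) (F : IntermediateField ℚ ℂ) (_ : FiniteDimensional ℚ F)
    (D : Subgroup (F ≃ₐ[ℚ] F)) (hD : ¬ p ∣ Nat.card D) (h : MuZero p F) : MuZero p (fx F D) := by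
  have hpf : Fact p.Prime := ⟨hp⟩
  obtain ⟨C, hC⟩ := h
  refine ⟨C, fun m E hE hEf => ?_⟩
  have hfd : FiniteDimensional ℚ E := FiniteDimensional.of_finrank_pos (by rw [hEf]; exact pow_pos hp.pos m)
  exact (padic_ge_cx F E D hD).trans (hC m E hE hEf)

theorem padic_dih {p : ℕ} [Fact p.Prime] (F E : IntermediateField ℚ ℂ) [FiniteDimensional ℚ F]
    [FiniteDimensional ℚ E] {B : Subgroup (F ≃ₐ[ℚ] F)} {c : F ≃ₐ[ℚ] F} [Fintype B]
    (hB : ∀ b ∈ B, c * b * c = b⁻¹) (hc : c * c = 1) (hcB : c ∉ B) (hp : ¬ p ∣ Nat.card B) :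
    padicValNat p (Nat.card (ClassGroup (𝓞 ↥(F ⊔ E)))) ≤
      padicValNat p (Nat.card (ClassGroup (𝓞 ↥(fx F B ⊔ E)))) +
      ∑ b : B, padicValNat p (Nat.card (ClassGroup (𝓞 ↥(fx F (Subgroup.zpowers (b.1 * c)) ⊔ E)))) := by
  obtain ⟨Γ, hΓ⟩ := dih_part hB hc hcB
  have h1 := padic_le_cx F E hΓ (p := p) (by
    rw [Fintype.card_option, Nat.add_sub_cancel, ← Nat.card_eq_fintype_card]
    exact hp)
  rw [Fintype.sum_option] at h1
  exact h1

theorem mu_dih {p : ℕ} (hp : p.Prime) (F : IntermediateField ℚ ℂ) (_ : FiniteDimensional ℚ F)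
    {B : Subgroup (F ≃ₐ[ℚ] F)} {c : F ≃ₐ[ℚ] F}
    (hB : ∀ b ∈ B, c * b * c = b⁻¹) (hc : c * c = 1) (hcB : c ∉ B) (hpB : ¬ p ∣ Nat.card B)
    (h : MuZero p (fx F B)) (h' : ∀ b ∈ B, MuZero p (fx F (Subgroup.zpowers (b * c)))) : MuZero p F := by
  have hpf : Fact p.Prime := ⟨hp⟩
  have hfin : Finite (F ≃ₐ[ℚ] F) := inferInstance
  have : Fintype B := Fintype.ofFinite _
  obtain ⟨C, hC⟩ := h
  choose C' hC' using fun b : B => h' b.1 b.2
  refine ⟨C + ∑ b, C' b, fun m E hE hEf => ?_⟩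
  have hfd : FiniteDimensional ℚ E := FiniteDimensional.of_finrank_pos (by rw [hEf]; exact pow_pos hp.pos m)
  refine (padic_dih F E hB hc hcB hpB).trans ?_
  rw [add_mul, Finset.sum_mul]
  exact add_le_add (hC m E hE hEf) (Finset.sum_le_sum fun b _ => hC' b m E hE hEf)

theorem abelian_gen {k M : Type} [Field k] [Field M] [Algebra k M] (K : IntermediateField k M)
    [FiniteDimensional k K] [IsGalois k K] {B : Subgroup (K ≃ₐ[k] K)}
    (h : ∀ g h : K ≃ₐ[k] K, g * h * g⁻¹ * h⁻¹ ∈ B) :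
    IsGalois k (lift (fixedField B)) ∧
      ∀ σ τ : lift (fixedField B) ≃ₐ[k] lift (fixedField B), σ * τ = τ * σ := by
  have hn : B.Normal := ⟨fun b hb g => by
    have := B.mul_mem (h g b) hb
    rwa [inv_mul_cancel_right] at this⟩
  have hg : IsGalois k (fixedField B) := IsGalois.of_fixedField_normal_subgroup B
  have h1 : ∀ σ τ : fixedField B ≃ₐ[k] fixedField B, σ * τ = τ * σ := by
    intro σ τ
    obtain ⟨s, rfl⟩ := (IsGalois.normalAutEquivQuotient B).surjective σ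
    obtain ⟨t, rfl⟩ := (IsGalois.normalAutEquivQuotient B).surjective τ
    rw [← map_mul, ← map_mul]
    congr 1
    obtain ⟨s, rfl⟩ := QuotientGroup.mk'_surjective _ s
    obtain ⟨t, rfl⟩ := QuotientGroup.mk'_surjective _ t
    rw [← map_mul, ← map_mul]
    rw [QuotientGroup.mk'_eq_mk']
    refine ⟨(s * t)⁻¹ * (t * s), ?_, ?_⟩
    · have := h (t⁻¹) (s⁻¹)
      have h2 : (s * t)⁻¹ * (t * s) = t⁻¹ * s⁻¹ * t⁻¹⁻¹ * s⁻¹⁻¹ := by group
      rw [h2]
      exact this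
    · group
  refine ⟨IsGalois.of_algEquiv (liftAlgEquiv (fixedField B)), fun σ τ => ?_⟩
  obtain ⟨s, rfl⟩ := (AlgEquiv.autCongr (liftAlgEquiv (fixedField B))).surjective σ
  obtain ⟨t, rfl⟩ := (AlgEquiv.autCongr (liftAlgEquiv (fixedField B))).surjective τ
  rw [← map_mul, ← map_mul, h1]

theorem abelian_fx (K : IntermediateField ℚ ℂ) [FiniteDimensional ℚ K] [IsGalois ℚ K]
    {B : Subgroup (K ≃ₐ[ℚ] K)} (h : ∀ g h : K ≃ₐ[ℚ] K, g * h * g⁻¹ * h⁻¹ ∈ B) :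
    IsGalois ℚ (fx K B) ∧ ∀ σ τ : fx K B ≃ₐ[ℚ] fx K B, σ * τ = τ * σ := by
  exact @abelian_gen ℚ ℂ _ _ _ K ‹FiniteDimensional ℚ K› ‹IsGalois ℚ K› B h

theorem exists_A_gen {k₀ M : Type} [Field k₀] [Field M] [Algebra k₀ M] (k K : IntermediateField k₀ M)
    [FiniteDimensional k₀ K] [IsGalois k₀ K] (hkK : k ≤ K) (hk2 : Module.finrank k₀ k = 2) :
    ∃ A : Subgroup (K ≃ₐ[k₀] K), (∀ σ : K ≃ₐ[k₀] K, σ ∈ A ↔ ∀ x : K, (x : M) ∈ k → σ x = x) ∧
      A.index = 2 ∧ Nat.card A * 2 = Module.finrank k₀ K := by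
  have hAi : (restrict hkK).fixingSubgroup.index = 2 := by
    rw [← finrank_eq_fixingSubgroup_index, ← (restrictAlgEquiv hkK).toLinearEquiv.finrank_eq, hk2]
  refine ⟨(restrict hkK).fixingSubgroup, ?_, hAi, ?_⟩
  · intro σ
    rw [IntermediateField.mem_fixingSubgroup_iff]
    constructor
    · intro h x hx
      exact h x ((mem_restrict hkK x).2 hx)
    · intro h x hx
      exact h x ((mem_restrict hkK x).1 hx)
  · rw [← hAi, Subgroup.card_mul_index, IsGalois.card_aut_eq_finrank]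

theorem exists_A (k K : IntermediateField ℚ ℂ)
    [FiniteDimensional ℚ K] [IsGalois ℚ K] (hkK : k ≤ K) (hk2 : Module.finrank ℚ k = 2) :
    ∃ A : Subgroup (K ≃ₐ[ℚ] K), (∀ σ : K ≃ₐ[ℚ] K, σ ∈ A ↔ ∀ x : K, (x : ℂ) ∈ k → σ x = x) ∧
      A.index = 2 ∧ Nat.card A * 2 = Module.finrank ℚ K :=
  @exists_A_gen ℚ ℂ _ _ _ k K ‹FiniteDimensional ℚ K› ‹IsGalois ℚ K› hkK hk2

/-- Transport along an isomorphism. -/
theorem iso_transport (M M' : IntermediateField ℚ ℂ) [FiniteDimensional ℚ M] [FiniteDimensional ℚ M']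
    (τ : M' ≃ₐ[ℚ] M) (k : ℕ) (hk : 0 < k) (E' : IntermediateField ℚ ℂ) [FiniteDimensional ℚ E']
    (hE' : E' ≤ adjoin ℚ {z : ℂ | z ^ k = 1}) :
    ∃ E : IntermediateField ℚ ℂ, E ≤ adjoin ℚ {z : ℂ | z ^ k = 1} ∧
      Module.finrank ℚ E = Module.finrank ℚ E' ∧
      Nat.card (ClassGroup (𝓞 ↥(M' ⊔ E'))) = Nat.card (ClassGroup (𝓞 ↥(M ⊔ E))) := by
  set R : Set ℂ := {z : ℂ | z ^ k = 1} with hR
  set S : Set ℂ := (M' : Set ℂ) ∪ R with hS
  have hK : ∀ s ∈ S, IsIntegral ℚ s ∧ ((minpoly ℚ s).map (algebraMap ℚ ℂ)).Splits := by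
    intro s hs
    refine ⟨?_, IsAlgClosed.splits _⟩
    rcases hs with hs | hs
    · have h1 : IsIntegral ℚ (⟨s, hs⟩ : M') := Algebra.IsIntegral.isIntegral _
      exact h1.map M'.val
    · have h1 : s ^ k = 1 := hs
      exact IsIntegral.of_pow hk (by rw [h1]; exact isIntegral_one)
  have hL : M' ≤ adjoin ℚ S := fun x hx => subset_adjoin ℚ S (Or.inl hx)
  have hRS : adjoin ℚ R ≤ adjoin ℚ S := adjoin.mono ℚ R S Set.subset_union_right
  have hES : E' ≤ adjoin ℚ S := hE'.trans hRS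
  obtain ⟨φ, hφ⟩ := exists_algHom_adjoin_of_splits hK (M.val.comp τ.toAlgHom) hL
  have hφM : ∀ (x : ℂ) (hx : x ∈ M'), φ ⟨x, hL hx⟩ = (τ ⟨x, hx⟩ : ℂ) := fun x hx =>
    DFunLike.congr_fun hφ ⟨x, hx⟩
  set E : IntermediateField ℚ ℂ := (restrict hES).map φ with hE
  have hER : E ≤ adjoin ℚ R := by
    have h1 : adjoin ℚ R ≤ lift ((adjoin ℚ R).comap φ) := by
      rw [adjoin_le_iff]
      intro z hz
      have hzS : z ∈ adjoin ℚ S := hRS (subset_adjoin ℚ R hz)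
      have h2 : (⟨z, hzS⟩ : adjoin ℚ S) ∈ (adjoin ℚ R).comap φ := by
        change φ ⟨z, hzS⟩ ∈ adjoin ℚ R
        apply subset_adjoin
        change (φ ⟨z, hzS⟩) ^ k = 1
        rw [← map_pow]
        have h3 : (⟨z, hzS⟩ : adjoin ℚ S) ^ k = 1 := Subtype.ext hz
        rw [h3, map_one]
      exact ⟨_, h2, rfl⟩
    rintro _ ⟨y, hy, rfl⟩
    obtain ⟨y', hy', hyy⟩ := h1 (hE' ((mem_restrict hES y).1 hy))
    have : y' = y := Subtype.ext hyy
    rw [← this]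
    exact hy'
  have e1 : E' ≃ₐ[ℚ] E := (restrictAlgEquiv hES).trans ((restrict hES).equivMap φ)
  have hfdE : FiniteDimensional ℚ E := e1.toLinearEquiv.finiteDimensional
  refine ⟨E, hER, e1.toLinearEquiv.finrank_eq.symm, ?_⟩
  have hle : M' ⊔ E' ≤ adjoin ℚ S := sup_le hL hES
  have h4 : (restrict hle).map φ = M ⊔ E := by
    have h5 : restrict hle = restrict hL ⊔ restrict hES := by
      apply lift_injective (adjoin ℚ S)
      rw [lift_restrict]
      refine Eq.trans ?_ (IntermediateField.map_sup _ _ (adjoin ℚ S).val).symm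
      exact (congrArg₂ (· ⊔ ·) (lift_restrict hL) (lift_restrict hES)).symm
    rw [h5, IntermediateField.map_sup]
    congr 1
    apply le_antisymm
    · rintro _ ⟨y, hy, rfl⟩
      have hy' := (mem_restrict hL y).1 hy
      have : φ y = (τ ⟨y.1, hy'⟩ : ℂ) := hφM y.1 hy'
      change φ y ∈ M
      rw [this]
      exact (τ ⟨y.1, hy'⟩).2
    · intro x hx
      obtain ⟨y, hy⟩ := τ.surjective ⟨x, hx⟩
      refine ⟨⟨y.1, hL y.2⟩, (mem_restrict hL _).2 y.2, ?_⟩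
      change φ ⟨y.1, hL y.2⟩ = x
      rw [hφM y.1 y.2]
      exact congrArg Subtype.val hy
  have n1 : NumberField ↥(M' ⊔ E') := ⟨⟩
  have n2 : NumberField ↥(M ⊔ E) := ⟨⟩
  have e2 : ↥(M' ⊔ E') ≃ₐ[ℚ] ↥(M ⊔ E) :=
    ((restrictAlgEquiv hle).trans ((restrict hle).equivMap φ)).trans (equivOfEq h4)
  exact card_congr' e2.toRingEquiv

theorem mu_iso {p : ℕ} (hp : p.Prime) (M M' : IntermediateField ℚ ℂ) [FiniteDimensional ℚ M]
    [FiniteDimensional ℚ M'] (τ : M' ≃ₐ[ℚ] M) (h : MuZero p M) : MuZero p M' := by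
  obtain ⟨C, hC⟩ := h
  refine ⟨C, fun m E' hE' hEf' => ?_⟩
  have hfd : FiniteDimensional ℚ E' := FiniteDimensional.of_finrank_pos (by rw [hEf']; exact pow_pos hp.pos m)
  obtain ⟨E, h1, h2, h3⟩ := iso_transport M M' τ _ (pow_pos hp.pos _) E' hE'
  rw [h3]
  exact hC m E h1 (h2.trans hEf')

/-- Conjugate subgroups have conjugate fixed fields. -/
theorem fx_conj (F : IntermediateField ℚ ℂ) (c d : F ≃ₐ[ℚ] F) :
    Nonempty (fx F (Subgroup.zpowers (d * c * d⁻¹)) ≃ₐ[ℚ] fx F (Subgroup.zpowers c)) := by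
  have h1 : (fixedField (Subgroup.zpowers c)).map (d : F →ₐ[ℚ] F) =
      fixedField (Subgroup.zpowers (d * c * d⁻¹)) := by
    have key : ∀ (g : F ≃ₐ[ℚ] F) (x : F), x ∈ fixedField (Subgroup.zpowers g) ↔ g x = x := by
      intro g x
      rw [mem_fixedField_iff]
      constructor
      · intro h
        exact h g (Subgroup.mem_zpowers g)
      · intro h f hf
        have h2 : Subgroup.zpowers g ≤ MulAction.stabilizer (F ≃ₐ[ℚ] F) x := by
          rw [Subgroup.zpowers_le]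
          exact h
        exact h2 hf
    ext x
    rw [key]
    constructor
    · rintro ⟨y, hy, rfl⟩
      have hy' := (key c y).1 hy
      change d (c (d⁻¹ (d y))) = d y
      have : d⁻¹ (d y) = y := d.symm_apply_apply y
      rw [this, hy']
    · intro hx
      refine ⟨d⁻¹ x, (key c _).2 ?_, d.apply_symm_apply x⟩
      have h2 : d (c (d⁻¹ x)) = x := hx
      have h3 : d⁻¹ (d (c (d⁻¹ x))) = d⁻¹ x := by rw [h2]
      rwa [show d⁻¹ (d (c (d⁻¹ x))) = c (d⁻¹ x) from d.symm_apply_apply _] at h3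
  exact ⟨((liftAlgEquiv _).symm.trans ((equivOfEq h1.symm).trans
    ((fixedField (Subgroup.zpowers c)).equivMap (d : F →ₐ[ℚ] F)).symm)).trans (liftAlgEquiv _)⟩

end Pool.Agent.X27.Cln
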