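import Pool.Agent.X27.Cln.Rank

set_option autoImplicit false
set_option linter.unusedSectionVars false

/-! Norm relations for ray class groups modulo powers of `p`. -/

namespace Pool.Agent.X27.Cln

open NumberField Ideal Pool.Agent.H471R2 IntermediateField

section defs
variable (p m : ℕ) {L : Type} [Field L] [NumberField L]

/-- The ideal `I` is prime to `p`. -/
def Cop (I : Ideal (𝓞 L)) : Prop := ¬ p ∣ absNorm I

/-- `I` and `J` have the same class in the ray class group modulo `p ^ m`, up to `p`-th powers. -/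
def RayEq (I J : Ideal (𝓞 L)) : Prop :=
  ∃ (x y : 𝓞 L) (A B : Ideal (𝓞 L)), x ≠ 0 ∧ y ≠ 0 ∧ (p : 𝓞 L) ^ m ∣ x - 1 ∧ (p : 𝓞 L) ^ m ∣ y - 1 ∧
    Cop p A ∧ Cop p B ∧ span {x} * I * A ^ p = span {y} * J * B ^ p

/-- The ray class group of `L` modulo `p ^ m` has at most `C` elements up to `p`-th powers. -/
def RayBd (C : ℕ) (L : Type) [Field L] [NumberField L] : Prop :=
  ∃ T : Finset (Ideal (𝓞 L)), T.card ≤ C ∧ ∀ I : Ideal (𝓞 L), Cop p I → ∃ J ∈ T, RayEq p m I J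

end defs

section
variable {p m : ℕ} {L : Type} [Field L] [NumberField L]

theorem cop_one (hp : p.Prime) : Cop p (1 : Ideal (𝓞 L)) := by
  unfold Cop
  rw [map_one]
  exact hp.one_lt.ne' ∘ Nat.dvd_one.1

theorem cop_mul (hp : p.Prime) {I J : Ideal (𝓞 L)} : Cop p (I * J) ↔ Cop p I ∧ Cop p J := by
  unfold Cop
  rw [map_mul, hp.dvd_mul, not_or]

theorem cop_pow (hp : p.Prime) {I : Ideal (𝓞 L)} (h : Cop p I) (n : ℕ) : Cop p (I ^ n) := by
  induction n with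
  | zero => rw [pow_zero]; exact cop_one hp
  | succ n ih => rw [pow_succ]; exact (cop_mul hp).2 ⟨ih, h⟩

theorem cop_prod (hp : p.Prime) {ι : Type} (s : Finset ι) (f : ι → Ideal (𝓞 L)) (h : ∀ i ∈ s, Cop p (f i)) :
    Cop p (∏ i ∈ s, f i) := by
  classical
  induction s using Finset.induction_on with
  | empty => rw [Finset.prod_empty]; exact cop_one hp
  | insert a s ha ih =>
    rw [Finset.prod_insert ha]
    exact (cop_mul hp).2 ⟨h a (Finset.mem_insert_self a s), ih fun i hi => h i (Finset.mem_insert_of_mem hi)⟩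

theorem rayEq_of (hp : p.Prime) {I J A : Ideal (𝓞 L)} (hA : Cop p A) (h : I * A ^ p = J) : RayEq p m I J := by
  refine ⟨1, 1, A, 1, one_ne_zero, one_ne_zero, ?_, ?_, hA, cop_one hp, ?_⟩
  · rw [sub_self]; exact dvd_zero _
  · rw [sub_self]; exact dvd_zero _
  · rw [Ideal.span_singleton_one, ← Ideal.one_eq_top, one_mul, one_mul, one_pow, mul_one, h]

theorem dvd_mul_sub {R : Type} [CommRing R] {d x y : R} (hx : d ∣ x - 1) (hy : d ∣ y - 1) : d ∣ x * y - 1 := by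
  have : x * y - 1 = x * (y - 1) + (x - 1) := by ring
  rw [this]
  exact dvd_add (hy.mul_left x) hx

theorem RayEq.symm {I J : Ideal (𝓞 L)} (h : RayEq p m I J) : RayEq p m J I := by
  obtain ⟨x, y, A, B, hx, hy, hx1, hy1, hA, hB, h⟩ := h
  exact ⟨y, x, B, A, hy, hx, hy1, hx1, hB, hA, h.symm⟩

theorem RayEq.trans (hp : p.Prime) {I J K : Ideal (𝓞 L)} (h : RayEq p m I J) (h' : RayEq p m J K) :
    RayEq p m I K := by
  obtain ⟨x, y, A, B, hx, hy, hx1, hy1, hA, hB, h⟩ := h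
  obtain ⟨x', y', A', B', hx', hy', hx1', hy1', hA', hB', h'⟩ := h'
  refine ⟨x * x', y * y', A * A', B * B', mul_ne_zero hx hx', mul_ne_zero hy hy', dvd_mul_sub hx1 hx1',
    dvd_mul_sub hy1 hy1', (cop_mul hp).2 ⟨hA, hA'⟩, (cop_mul hp).2 ⟨hB, hB'⟩, ?_⟩
  rw [← Ideal.span_singleton_mul_span_singleton, ← Ideal.span_singleton_mul_span_singleton, mul_pow, mul_pow]
  calc span {x} * span {x'} * I * (A ^ p * A' ^ p) = (span {x} * I * A ^ p) * (span {x'} * A' ^ p) := by ring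
    _ = (span {y} * J * B ^ p) * (span {x'} * A' ^ p) := by rw [h]
    _ = (span {x'} * J * A' ^ p) * (span {y} * B ^ p) := by ring
    _ = (span {y'} * K * B' ^ p) * (span {y} * B ^ p) := by rw [h']
    _ = span {y} * span {y'} * K * (B ^ p * B' ^ p) := by ring

theorem RayEq.mul (hp : p.Prime) {I J I' J' : Ideal (𝓞 L)} (h : RayEq p m I J) (h' : RayEq p m I' J') :
    RayEq p m (I * I') (J * J') := by
  obtain ⟨x, y, A, B, hx, hy, hx1, hy1, hA, hB, h⟩ := h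
  obtain ⟨x', y', A', B', hx', hy', hx1', hy1', hA', hB', h'⟩ := h'
  refine ⟨x * x', y * y', A * A', B * B', mul_ne_zero hx hx', mul_ne_zero hy hy', dvd_mul_sub hx1 hx1',
    dvd_mul_sub hy1 hy1', (cop_mul hp).2 ⟨hA, hA'⟩, (cop_mul hp).2 ⟨hB, hB'⟩, ?_⟩
  rw [← Ideal.span_singleton_mul_span_singleton, ← Ideal.span_singleton_mul_span_singleton, mul_pow, mul_pow]
  calc span {x} * span {x'} * (I * I') * (A ^ p * A' ^ p) =
      (span {x} * I * A ^ p) * (span {x'} * I' * A' ^ p) := by ring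
    _ = (span {y} * J * B ^ p) * (span {y'} * J' * B' ^ p) := by rw [h, h']
    _ = _ := by ring

theorem RayEq.refl (hp : p.Prime) (I : Ideal (𝓞 L)) : RayEq p m I I :=
  rayEq_of hp (cop_one hp) (by rw [one_pow, mul_one])

theorem RayEq.pow (hp : p.Prime) {I J : Ideal (𝓞 L)} (h : RayEq p m I J) (n : ℕ) :
    RayEq p m (I ^ n) (J ^ n) := by
  induction n with
  | zero => rw [pow_zero, pow_zero]; exact RayEq.refl hp _
  | succ n ih => rw [pow_succ, pow_succ]; exact ih.mul hp h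

theorem RayEq.prod (hp : p.Prime) {ι : Type} (s : Finset ι) (f g : ι → Ideal (𝓞 L))
    (h : ∀ i ∈ s, RayEq p m (f i) (g i)) : RayEq p m (∏ i ∈ s, f i) (∏ i ∈ s, g i) := by
  classical
  induction s using Finset.induction_on with
  | empty => rw [Finset.prod_empty, Finset.prod_empty]; exact RayEq.refl hp _
  | insert a s ha ih =>
    rw [Finset.prod_insert ha, Finset.prod_insert ha]
    exact (h a (Finset.mem_insert_self a s)).mul hp (ih fun i hi => h i (Finset.mem_insert_of_mem hi))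

end

section ext
variable {p m : ℕ} {K L : Type} [Field K] [NumberField K] [Field L] [NumberField L] [Algebra K L]

theorem finrank_oo : Module.finrank (𝓞 K) (𝓞 L) = Module.finrank K L :=
  (IsFractionRing.finrank_eq (𝓞 K) K (𝓞 L) L).symm

theorem cop_ext (hp : p.Prime) (I : Ideal (𝓞 K)) : Cop p (I.map (algebraMap (𝓞 K) (𝓞 L))) ↔ Cop p I := by
  unfold Cop
  rw [absNorm_algebraMap, finrank_oo]
  have h1 : 0 < Module.finrank K L := Module.finrank_pos
  exact ⟨fun h h' => h (dvd_pow h' h1.ne'), fun h h' => h (hp.dvd_of_dvd_pow h')⟩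

theorem cop_norm (I : Ideal (𝓞 L)) : Cop p (relNorm (𝓞 K) I) ↔ Cop p I := by
  unfold Cop
  rw [absNorm_relNorm]

theorem RayEq.ext (hp : p.Prime) {I J : Ideal (𝓞 K)} (h : RayEq p m I J) :
    RayEq p m (I.map (algebraMap (𝓞 K) (𝓞 L))) (J.map (algebraMap (𝓞 K) (𝓞 L))) := by
  obtain ⟨x, y, A, B, hx, hy, hx1, hy1, hA, hB, h⟩ := h
  have hinj : Function.Injective (algebraMap (𝓞 K) (𝓞 L)) := FaithfulSMul.algebraMap_injective _ _
  have hne : ∀ x : 𝓞 K, x ≠ 0 → algebraMap (𝓞 K) (𝓞 L) x ≠ 0 := fun x hx => by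
    rw [Ne, map_eq_zero_iff _ hinj]; exact hx
  have hd : ∀ x : 𝓞 K, (p : 𝓞 K) ^ m ∣ x - 1 → (p : 𝓞 L) ^ m ∣ algebraMap (𝓞 K) (𝓞 L) x - 1 := by
    intro x hx
    have := map_dvd (algebraMap (𝓞 K) (𝓞 L)) hx
    rwa [map_pow, map_natCast, map_sub, map_one] at this
  refine ⟨_, _, A.map (algebraMap (𝓞 K) (𝓞 L)), B.map (algebraMap (𝓞 K) (𝓞 L)), hne x hx, hne y hy,
    hd x hx1, hd y hy1, (cop_ext hp A).2 hA, (cop_ext hp B).2 hB, ?_⟩
  have h2 := congrArg (Ideal.map (algebraMap (𝓞 K) (𝓞 L))) h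
  rw [Ideal.map_mul, Ideal.map_mul, Ideal.map_mul, Ideal.map_mul, Ideal.map_pow, Ideal.map_pow,
    Ideal.map_span, Ideal.map_span, Set.image_singleton, Set.image_singleton] at h2
  exact h2

end ext

section main
variable {p m : ℕ} {L : Type} [Field L] [NumberField L]
variable {ι : Type} [Fintype ι] {Γ : Subgroup (L ≃ₐ[ℚ] L)} {D : ι → Subgroup (L ≃ₐ[ℚ] L)}

/-- The product of the conjugates under a larger group also comes from the fixed field of the smaller one. -/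
theorem prod_from {D D' : Subgroup (L ≃ₐ[ℚ] L)} [Fintype D'] (h : D ≤ D') (I : Ideal (𝓞 L)) :
    ∃ J : Ideal (𝓞 (Kf D)), J.map (algebraMap (𝓞 (Kf D)) (𝓞 L)) = ∏ σ : D', ia σ.1 I := by
  have hle : Kf D' ≤ Kf D := by
    intro x hx
    rw [IntermediateField.mem_fixedField_iff] at hx ⊢
    exact fun f hf => hx f (h hf)
  let φ : 𝓞 (Kf D') →+* 𝓞 (Kf D) :=
    RingOfIntegers.mapRingHom (IntermediateField.inclusion hle).toRingHom
  have hφ : (algebraMap (𝓞 (Kf D)) (𝓞 L)).comp φ = algebraMap (𝓞 (Kf D')) (𝓞 L) := by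
    ext x
    rfl
  refine ⟨(relNorm (𝓞 (Kf D')) I).map φ, ?_⟩
  rw [Ideal.map_map, hφ, prod_ia_sub]

theorem cop_ia {σ : L ≃ₐ[ℚ] L} {I : Ideal (𝓞 L)} : Cop p (ia σ I) ↔ Cop p I := by
  unfold Cop
  rw [absNorm_ia]

theorem ray_key [Nonempty ι] (h : IsPart Γ D) (hp : p.Prime) (hk : ¬ p ∣ Fintype.card ι - 1)
    (I : Ideal (𝓞 L)) (hI : Cop p I) :
    ∃ J : (i : ι) → Ideal (𝓞 (Kf (D i))), (∀ i, Cop p (J i)) ∧
      RayEq p m I (∏ i, (J i).map (algebraMap (𝓞 (Kf (D i))) (𝓞 L))) := by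
  classical
  have hfin : Fintype (L ≃ₐ[ℚ] L) := Fintype.ofFinite _
  have h1 := part_relation h (fun σ => ia σ I)
  have hconv : ∀ E : Subgroup (L ≃ₐ[ℚ] L),
      ∏ σ ∈ Finset.univ.filter (fun σ : L ≃ₐ[ℚ] L => σ ∈ E), ia σ I = ∏ σ : E, ia σ.1 I :=
    fun E => Finset.prod_subtype _ (fun σ => by simp) _
  simp only [hconv, ia_one] at h1
  have hI0 : I ≠ 0 := by
    rintro rfl
    apply hI
    rw [Ideal.zero_eq_bot, Ideal.absNorm_bot]
    exact dvd_zero p
  obtain ⟨i0⟩ := (inferInstance : Nonempty ι)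
  have hkpos : 1 ≤ Fintype.card ι := Fintype.card_pos
  have h2 : ∏ i, ∏ σ : D i, ia σ.1 I = (∏ σ : Γ, ia σ.1 I) * I ^ (Fintype.card ι - 1) := by
    apply mul_right_cancel₀ hI0
    rw [h1, mul_assoc, ← pow_succ, Nat.sub_add_cancel hkpos]
  -- the exponent
  have hcop : Nat.Coprime (Fintype.card ι - 1) p := ((Nat.Prime.coprime_iff_not_dvd hp).2 hk).symm
  obtain ⟨u, j, huj⟩ : ∃ u j : ℕ, u * (Fintype.card ι - 1) = 1 + j * p := by
    obtain ⟨u, hu⟩ := Nat.exists_mul_mod_eq_one_of_coprime hcop hp.one_lt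
    refine ⟨u, (Fintype.card ι - 1) * u / p, ?_⟩
    have := Nat.mod_add_div ((Fintype.card ι - 1) * u) p
    rw [hu.2] at this
    rw [mul_comm u, mul_comm _ p]
    exact this.symm
  obtain ⟨JΓ, hJΓ⟩ := prod_from (h.1 i0) I
  have hcG : Cop p (∏ σ : Γ, ia σ.1 I) := cop_prod hp _ _ fun σ _ => cop_ia.2 hI
  have hcJ : Cop p JΓ := by
    rw [← cop_ext (L := L) hp, hJΓ]
    exact hcG
  let t : (i : ι) → Ideal (𝓞 (Kf (D i))) := Pi.mulSingle i0 (JΓ ^ (u * (p - 1)))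
  have ht : ∀ i, Cop p (t i) := by
    intro i
    by_cases hi : i = i0
    · subst hi
      change Cop p ((Pi.mulSingle i (JΓ ^ (u * (p - 1))) : (i : ι) → Ideal (𝓞 (Kf (D i)))) i)
      rw [Pi.mulSingle_eq_same]
      exact cop_pow hp hcJ _
    · change Cop p ((Pi.mulSingle i0 (JΓ ^ (u * (p - 1))) : (i : ι) → Ideal (𝓞 (Kf (D i)))) i)
      rw [Pi.mulSingle_eq_of_ne hi]
      exact cop_one hp
  refine ⟨fun i => (relNorm (𝓞 (Kf (D i))) I) ^ u * t i, fun i => ?_, ?_⟩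
  · exact (cop_mul hp).2 ⟨cop_pow hp ((cop_norm (K := Kf (D i)) I).2 hI) u, ht i⟩
  · have h3 : ∏ i, (((relNorm (𝓞 (Kf (D i))) I) ^ u * t i).map (algebraMap (𝓞 (Kf (D i))) (𝓞 L))) =
        (∏ i, ∏ σ : D i, ia σ.1 I) ^ u * (∏ σ : Γ, ia σ.1 I) ^ (u * (p - 1)) := by
      have h4 : ∀ i, ((relNorm (𝓞 (Kf (D i))) I) ^ u * t i).map (algebraMap (𝓞 (Kf (D i))) (𝓞 L)) =
          (∏ σ : D i, ia σ.1 I) ^ u * (t i).map (algebraMap (𝓞 (Kf (D i))) (𝓞 L)) := by
        intro i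
        rw [Ideal.map_mul, Ideal.map_pow, ← prod_ia_sub]
      rw [Finset.prod_congr rfl fun i _ => h4 i, Finset.prod_mul_distrib, Finset.prod_pow]
      congr 1
      rw [Finset.prod_eq_single i0]
      · change ((Pi.mulSingle i0 (JΓ ^ (u * (p - 1))) : (i : ι) → Ideal (𝓞 (Kf (D i)))) i0).map _ = _
        rw [Pi.mulSingle_eq_same, Ideal.map_pow, hJΓ]
      · intro j _ hj
        change ((Pi.mulSingle i0 (JΓ ^ (u * (p - 1))) : (i : ι) → Ideal (𝓞 (Kf (D i)))) j).map _ = _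
        rw [Pi.mulSingle_eq_of_ne hj]
        rw [Ideal.one_eq_top, Ideal.map_top, Ideal.one_eq_top]
      · intro hi
        exact absurd (Finset.mem_univ _) hi
    refine rayEq_of hp (A := (∏ σ : Γ, ia σ.1 I) ^ u * I ^ j) ((cop_mul hp).2 ⟨cop_pow hp hcG u, cop_pow hp hI j⟩) ?_
    rw [h3, h2, mul_pow, mul_pow, ← pow_mul, ← pow_mul, ← pow_mul, mul_comm (Fintype.card ι - 1) u, huj]
    have h5 : u * p = u + u * (p - 1) := by
      have := hp.one_lt
      obtain ⟨r, hr⟩ : ∃ r, p = r + 1 := ⟨p - 1, by omega⟩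
      rw [hr, Nat.add_sub_cancel]; ring
    rw [h5, pow_add (∏ σ : Γ, ia σ.1 I) u, pow_add I 1, pow_one]
    ring

theorem rayBd_part [Nonempty ι] (h : IsPart Γ D) (hp : p.Prime) (hk : ¬ p ∣ Fintype.card ι - 1) (C : ι → ℕ)
    (hC : ∀ i, RayBd p m (C i) (Kf (D i))) : RayBd p m (∏ i, C i) L := by
  classical
  choose T hT hT' using hC
  refine ⟨(Fintype.piFinset T).image fun t => ∏ i, (t i).map (algebraMap (𝓞 (Kf (D i))) (𝓞 L)), ?_, ?_⟩
  · refine Finset.card_image_le.trans ?_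
    rw [Fintype.card_piFinset]
    exact Finset.prod_le_prod' fun i _ => hT i
  · intro I hI
    obtain ⟨J, hJ, hIJ⟩ := ray_key (m := m) h hp hk I hI
    choose t ht ht' using fun i => hT' i (J i) (hJ i)
    refine ⟨_, Finset.mem_image.2 ⟨t, Fintype.mem_piFinset.2 ht, rfl⟩, ?_⟩
    exact hIJ.trans hp (RayEq.prod hp _ _ _ fun i _ => (ht' i).ext hp)

end main

section transport
variable {p m : ℕ}

/-- Isomorphic fields have the same ray class groups. -/
theorem rayBd_congr (hp : p.Prime) {A B : Type} [Field A] [NumberField A] [Field B] [NumberField B]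
    (e : A ≃+* B) {C : ℕ} (h : RayBd p m C A) : RayBd p m C B := by
  classical
  let : Algebra A B := e.toRingHom.toAlgebra
  obtain ⟨T, hT, hT'⟩ := h
  refine ⟨T.image fun J => J.map (algebraMap (𝓞 A) (𝓞 B)), Finset.card_image_le.trans hT, ?_⟩
  intro I hI
  have hs : Function.Surjective (algebraMap (𝓞 A) (𝓞 B)) := by
    intro y
    refine ⟨⟨e.symm (y : B), ?_⟩, ?_⟩
    · exact (RingOfIntegers.isIntegral_coe y).map e.symm.toRingHom.toIntAlgHom
    · apply RingOfIntegers.ext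
      exact e.apply_symm_apply (y : B)
  have h1 : (I.comap (algebraMap (𝓞 A) (𝓞 B))).map (algebraMap (𝓞 A) (𝓞 B)) = I :=
    Ideal.map_comap_of_surjective _ hs I
  have h2 : Cop p (I.comap (algebraMap (𝓞 A) (𝓞 B))) := by
    rw [← cop_ext (L := B) hp, h1]
    exact hI
  obtain ⟨J, hJ, hIJ⟩ := hT' _ h2
  refine ⟨_, Finset.mem_image.2 ⟨J, hJ, rfl⟩, ?_⟩
  have h3 := RayEq.ext (L := B) hp hIJ
  rwa [h1] at h3

/-- A divisibility can be checked in an extension. -/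
theorem dvd_down {K L : Type} [Field K] [NumberField K] [Field L] [NumberField L] [Algebra K L]
    {a b : 𝓞 K} (hb : b ≠ 0) (h : algebraMap (𝓞 K) (𝓞 L) b ∣ algebraMap (𝓞 K) (𝓞 L) a) : b ∣ a := by
  obtain ⟨w, hw⟩ := h
  have hb' : (b : K) ≠ 0 := fun h => hb (RingOfIntegers.ext h)
  have h1 : algebraMap K L ((a : K) / (b : K)) = (w : L) := by
    rw [map_div₀]
    have h2 : algebraMap K L (b : K) ≠ 0 := by
      rw [Ne, map_eq_zero]; exact hb'
    rw [div_eq_iff h2]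
    have h3 := congrArg (fun x : 𝓞 L => (x : L)) hw
    have h4 : (algebraMap (𝓞 K) (𝓞 L) a : L) = algebraMap K L (a : K) := rfl
    have h5 : (algebraMap (𝓞 K) (𝓞 L) b : L) = algebraMap K L (b : K) := rfl
    simp only [map_mul] at h3
    rw [← h4, ← h5]
    rw [h3]
    exact mul_comm _ _
  have h2 : IsIntegral ℤ ((a : K) / (b : K)) := by
    have h3 : IsIntegral ℤ (algebraMap K L ((a : K) / (b : K))) := by
      rw [h1]; exact RingOfIntegers.isIntegral_coe w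
    exact (isIntegral_algebraMap_iff (algebraMap K L).injective).1 h3
  refine ⟨⟨_, h2⟩, ?_⟩
  apply RingOfIntegers.ext
  change (a : K) = (b : K) * ((a : K) / (b : K))
  rw [mul_div_cancel₀ _ hb']

theorem norm_sub_one {L : Type} [Field L] [NumberField L] (D : Subgroup (L ≃ₐ[ℚ] L)) (hp : p.Prime)
    {x : 𝓞 L} (hx : (p : 𝓞 L) ^ m ∣ x - 1) :
    (p : 𝓞 (Kf D)) ^ m ∣ Algebra.intNorm (𝓞 (Kf D)) (𝓞 L) x - 1 := by
  classical
  have : Fintype D := Fintype.ofFinite _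
  have hb : (p : 𝓞 (Kf D)) ^ m ≠ 0 := pow_ne_zero _ (Nat.cast_ne_zero.2 hp.ne_zero)
  apply dvd_down (L := L) hb
  rw [map_pow, map_natCast, map_sub, map_one, intNorm_prod]
  have h1 : ∀ σ : L ≃ₐ[ℚ] L, (p : 𝓞 L) ^ m ∣ ra σ x - 1 := by
    intro σ
    have := map_dvd (ra σ : 𝓞 L →+* 𝓞 L) hx
    rw [map_pow, map_natCast, map_sub, map_one] at this
    exact this
  have h2 : ∀ s : Finset D, (p : 𝓞 L) ^ m ∣ ∏ σ ∈ s, ra σ.1 x - 1 := by
    intro s
    induction s using Finset.induction_on with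
    | empty => rw [Finset.prod_empty, sub_self]; exact dvd_zero _
    | insert a s ha ih =>
      rw [Finset.prod_insert ha]
      exact dvd_mul_sub (h1 a.1) ih
  exact h2 _

theorem RayEq.norm {L : Type} [Field L] [NumberField L] (D : Subgroup (L ≃ₐ[ℚ] L)) (hp : p.Prime)
    {I J : Ideal (𝓞 L)} (h : RayEq p m I J) :
    RayEq p m (relNorm (𝓞 (Kf D)) I) (relNorm (𝓞 (Kf D)) J) := by
  obtain ⟨x, y, A, B, hx, hy, hx1, hy1, hA, hB, h⟩ := h
  have hne : ∀ x : 𝓞 L, x ≠ 0 → Algebra.intNorm (𝓞 (Kf D)) (𝓞 L) x ≠ 0 := by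
    intro x hx h0
    have h7 : relNorm (𝓞 (Kf D)) (span {x}) = ⊥ := by
      rw [relNorm_singleton, h0, Ideal.span_singleton_eq_bot]
    rw [relNorm_eq_bot_iff, Ideal.span_singleton_eq_bot] at h7
    exact hx h7
  refine ⟨_, _, relNorm (𝓞 (Kf D)) A, relNorm (𝓞 (Kf D)) B, hne x hx, hne y hy, norm_sub_one D hp hx1,
    norm_sub_one D hp hy1, (cop_norm A).2 hA, (cop_norm B).2 hB, ?_⟩
  have h2 := congrArg (relNorm (𝓞 (Kf D))) h
  rw [map_mul, map_mul, map_mul, map_mul, map_pow, map_pow, relNorm_singleton, relNorm_singleton] at h2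
  exact h2

theorem rayBd_down {L : Type} [Field L] [NumberField L] (D : Subgroup (L ≃ₐ[ℚ] L)) (hp : p.Prime)
    (hd : ¬ p ∣ Module.finrank (Kf D) L) {C : ℕ} (h : RayBd p m C L) : RayBd p m C (Kf D) := by
  classical
  obtain ⟨T, hT, hT'⟩ := h
  set d := Module.finrank (Kf D) L with hdd
  have hcop : Nat.Coprime d p := ((Nat.Prime.coprime_iff_not_dvd hp).2 hd).symm
  obtain ⟨u, j, huj⟩ : ∃ u j : ℕ, u * d = 1 + j * p := by
    obtain ⟨u, hu⟩ := Nat.exists_mul_mod_eq_one_of_coprime hcop hp.one_lt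
    refine ⟨u, d * u / p, ?_⟩
    have := Nat.mod_add_div (d * u) p
    rw [hu.2] at this
    rw [mul_comm u, mul_comm _ p]
    exact this.symm
  refine ⟨T.image fun J => (relNorm (𝓞 (Kf D)) J) ^ u, Finset.card_image_le.trans hT, ?_⟩
  intro I hI
  obtain ⟨J, hJ, hIJ⟩ := hT' (I.map (algebraMap (𝓞 (Kf D)) (𝓞 L))) ((cop_ext hp I).2 hI)
  refine ⟨_, Finset.mem_image.2 ⟨J, hJ, rfl⟩, ?_⟩
  have h1 := (hIJ.norm D hp).pow hp u
  rw [relNorm_algebraMap, finrank_oo, ← hdd, ← pow_mul, mul_comm d u, huj] at h1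
  refine RayEq.trans hp (rayEq_of hp (cop_pow hp hI j) ?_) h1
  rw [pow_add, pow_one, ← pow_mul]

end transport

section comp
variable {p m : ℕ} {F L : Type} [Field F] [NumberField F] [Field L] [NumberField L] [Algebra F L]

theorem rayBd_comp {ι : Type} [Fintype ι] [Nonempty ι] {Γ : Subgroup (F ≃ₐ[ℚ] F)}
    {D : ι → Subgroup (F ≃ₐ[ℚ] F)} (hD : IsPart Γ D) (E : IntermediateField ℚ L)
    (h : (emb F L).fieldRange ⊔ E = ⊤) (hp : p.Prime) (hk : ¬ p ∣ Fintype.card ι - 1) (C : ι → ℕ)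
    (hC : ∀ i, RayBd p m (C i) (comp (D i) E)) : RayBd p m (∏ i, C i) L := by
  refine rayBd_part (isPart_comp hD E h) hp hk C fun i => ?_
  exact rayBd_congr hp (equivOfEq (fixed_comp (D i) E h)).symm.toRingEquiv (hC i)

theorem rayBd_comp_down (D : Subgroup (F ≃ₐ[ℚ] F)) (E : IntermediateField ℚ L)
    (h : (emb F L).fieldRange ⊔ E = ⊤) (hp : p.Prime) (hd : ¬ p ∣ Nat.card D) {C : ℕ} (hC : RayBd p m C L) :
    RayBd p m C (comp D E) := by
  have hpf : Fact p.Prime := ⟨hp⟩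
  have h1 := not_dvd_comp D E h hd
  have h2 := fixed_comp D E h
  refine rayBd_congr hp (equivOfEq h2).toRingEquiv (rayBd_down _ hp ?_ hC)
  have h3 : Module.finrank (Kf (comp D E).fixingSubgroup) L = Module.finrank (comp D E) L := by
    have key : ∀ M N : IntermediateField ℚ L, M = N → Module.finrank M L = Module.finrank N L := by
      rintro M _ rfl; rfl
    exact key _ _ h2
  rw [h3]
  exact h1

end comp

theorem rayBd_congr_set {p m C : ℕ} (hp : p.Prime) {A B : IntermediateField ℚ ℂ} {K : IntermediateField ℚ A}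
    [NumberField A] [NumberField B] (h : ∀ x : ℂ, x ∈ B ↔ ∃ y : A, y ∈ K ∧ (y : ℂ) = x) :
    RayBd p m C K ↔ RayBd p m C B := by
  let f : K →+* B :=
    { toFun := fun y => ⟨(y.1 : ℂ), (h _).2 ⟨y.1, y.2, rfl⟩⟩
      map_mul' := fun _ _ => rfl
      map_add' := fun _ _ => rfl
      map_one' := rfl
      map_zero' := rfl }
  have hs : Function.Surjective f := by
    rintro ⟨x, hx⟩
    obtain ⟨y, hy, rfl⟩ := (h x).1 hx
    exact ⟨⟨y, hy⟩, rfl⟩
  let e : K ≃+* B := RingEquiv.ofBijective f ⟨f.injective, hs⟩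
  exact ⟨rayBd_congr hp e, rayBd_congr hp e.symm⟩

theorem rayBd_cx {p m : ℕ} (F E : IntermediateField ℚ ℂ) [NumberField F] [NumberField ↥(F ⊔ E)]
    {ι : Type} [Fintype ι] [Nonempty ι] {Γ : Subgroup (F ≃ₐ[ℚ] F)} {D : ι → Subgroup (F ≃ₐ[ℚ] F)}
    (hD : IsPart Γ D) [∀ i, NumberField ↥(fx F (D i) ⊔ E)]
    (hp : p.Prime) (hk : ¬ p ∣ Fintype.card ι - 1) (C : ι → ℕ)
    (hC : ∀ i, RayBd p m (C i) ↥(fx F (D i) ⊔ E)) : RayBd p m (∏ i, C i) ↥(F ⊔ E) := by
  obtain ⟨i1, E', h1, h2⟩ := exists_setup F E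
  exact rayBd_comp hD E' h1 hp hk C fun i => (rayBd_congr_set hp (h2 (D i))).2 (hC i)

theorem rayBd_cx_down {p m : ℕ} (F E : IntermediateField ℚ ℂ) [NumberField F] [NumberField ↥(F ⊔ E)]
    (D : Subgroup (F ≃ₐ[ℚ] F)) [NumberField ↥(fx F D ⊔ E)] (hp : p.Prime)
    (hd : ¬ p ∣ Nat.card D) {C : ℕ} (hC : RayBd p m C ↥(F ⊔ E)) : RayBd p m C ↥(fx F D ⊔ E) := by
  obtain ⟨i1, E', h1, h2⟩ := exists_setup F E
  exact (rayBd_congr_set hp (h2 D)).1 (rayBd_comp_down D E' h1 hp hd hC)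

end Pool.Agent.X27.Cln
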