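import Pool.Agent.X27.Cln.Tower

set_option autoImplicit false
set_option linter.unusedSectionVars false

/-! Subfields of `ℂ`, and partitions of groups of order `q r`. -/

namespace Pool.Agent.X27.Cln

open NumberField Ideal Pool.Agent.H471R2 IntermediateField

/-- The fixed field, as a subfield of `ℂ`. -/
noncomputable def fx (F : IntermediateField ℚ ℂ) (D : Subgroup (F ≃ₐ[ℚ] F)) : IntermediateField ℚ ℂ :=
  lift (fixedField D)

theorem fx_le (F : IntermediateField ℚ ℂ) (D : Subgroup (F ≃ₐ[ℚ] F)) : fx F D ≤ F := lift_le _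

theorem lift_sup {F : IntermediateField ℚ ℂ} (a b : IntermediateField ℚ F) :
    lift (a ⊔ b) = lift a ⊔ lift b := IntermediateField.map_sup a b _

theorem card_congr_set {A B : IntermediateField ℚ ℂ} {C : IntermediateField ℚ A} [FiniteDimensional ℚ A]
    [FiniteDimensional ℚ B] (h : ∀ x : ℂ, x ∈ B ↔ ∃ y : A, y ∈ C ∧ (y : ℂ) = x) :
    Nat.card (ClassGroup (𝓞 ↥C)) = Nat.card (ClassGroup (𝓞 ↥B)) := by
  have nA : NumberField A := ⟨⟩
  have nB : NumberField B := ⟨⟩
  let f : C →+* B :=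
    { toFun := fun y => ⟨(y.1 : ℂ), (h _).2 ⟨y.1, y.2, rfl⟩⟩
      map_mul' := fun _ _ => rfl
      map_add' := fun _ _ => rfl
      map_one' := rfl
      map_zero' := rfl }
  have hs : Function.Surjective f := by
    rintro ⟨x, hx⟩
    obtain ⟨y, hy, rfl⟩ := (h x).1 hx
    exact ⟨⟨y, hy⟩, rfl⟩
  exact card_congr' (RingEquiv.ofBijective f ⟨f.injective, hs⟩)

theorem padic_le_cx (F E : IntermediateField ℚ ℂ) [FiniteDimensional ℚ F] [FiniteDimensional ℚ E]
    {ι : Type} [Fintype ι] [Nonempty ι] {Γ : Subgroup (F ≃ₐ[ℚ] F)} {D : ι → Subgroup (F ≃ₐ[ℚ] F)}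
    (hp : IsPart Γ D) {p : ℕ} [Fact p.Prime] (hk : ¬ p ∣ Fintype.card ι - 1) :
    padicValNat p (Nat.card (ClassGroup (𝓞 ↥(F ⊔ E)))) ≤
      ∑ i, padicValNat p (Nat.card (ClassGroup (𝓞 ↥(fx F (D i) ⊔ E)))) := by
  have nF : NumberField F := ⟨⟩
  have nE : NumberField E := ⟨⟩
  have nL : NumberField ↥(F ⊔ E) := ⟨⟩
  let : Algebra F ↥(F ⊔ E) := (inclusion (le_sup_left : F ≤ F ⊔ E)).toRingHom.toAlgebra
  set E' : IntermediateField ℚ ↥(F ⊔ E) := restrict (le_sup_right : E ≤ F ⊔ E) with hE'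
  have h1 : lift (emb F ↥(F ⊔ E)).fieldRange = F := by
    apply le_antisymm
    · rintro _ ⟨_, ⟨x, rfl⟩, rfl⟩
      exact x.2
    · intro x hx
      exact ⟨_, ⟨⟨x, hx⟩, rfl⟩, rfl⟩
  have h2 : (emb F ↥(F ⊔ E)).fieldRange ⊔ E' = ⊤ := by
    apply lift_injective (F ⊔ E)
    refine (IntermediateField.map_sup _ _ (F ⊔ E).val).trans ?_
    refine (congrArg₂ (· ⊔ ·) h1 (lift_restrict (le_sup_right : E ≤ F ⊔ E))).trans ?_
    exact (lift_top ℚ (F ⊔ E)).symm
  refine (padic_le_comp hp E' h2 hk).trans (le_of_eq ?_)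
  refine Finset.sum_congr rfl fun i _ => ?_
  congr 1
  have h4 : ((fixedField (D i)).map (emb F ↥(F ⊔ E))).map (F ⊔ E).val = fx F (D i) := by
    apply le_antisymm
    · rintro _ ⟨_, ⟨x, hx, rfl⟩, rfl⟩
      exact ⟨x, hx, rfl⟩
    · rintro _ ⟨x, hx, rfl⟩
      exact ⟨_, ⟨x, hx, rfl⟩, rfl⟩
  have h3 : (comp (D i) E').map (F ⊔ E).val = fx F (D i) ⊔ E := by
    refine (IntermediateField.map_sup _ _ (F ⊔ E).val).trans ?_
    exact congrArg₂ (· ⊔ ·) h4 (lift_restrict (le_sup_right : E ≤ F ⊔ E))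
  have hfx : FiniteDimensional ℚ (fx F (D i)) := by
    have : FiniteDimensional ℚ (fixedField (D i)) := inferInstance
    exact LinearEquiv.finiteDimensional (liftAlgEquiv (fixedField (D i))).toLinearEquiv
  have hfin : FiniteDimensional ℚ ↥(fx F (D i) ⊔ E) := inferInstance
  apply card_congr_set
  intro x
  rw [← h3]
  constructor
  · rintro ⟨y, hy, rfl⟩
    exact ⟨y, hy, rfl⟩
  · rintro ⟨y, hy, rfl⟩
    exact ⟨y, hy, rfl⟩

theorem fx_finrank_lt (F : IntermediateField ℚ ℂ) [FiniteDimensional ℚ F] {D : Subgroup (F ≃ₐ[ℚ] F)}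
    (hD : D ≠ ⊥) : Module.finrank ℚ (fx F D) < Module.finrank ℚ F := by
  have h1 : Module.finrank ℚ (fx F D) = Module.finrank ℚ (fixedField D) :=
    (liftAlgEquiv (fixedField D)).toLinearEquiv.finrank_eq.symm
  rw [h1]
  have h2 : Module.finrank (fixedField D) F = Nat.card D := finrank_fixedField_eq_card D
  have h3 := Module.finrank_mul_finrank ℚ (fixedField D) F
  rw [h2] at h3
  have h4 : 1 < Nat.card D := by
    rw [Subgroup.one_lt_card_iff_ne_bot]
    exact hD
  have h5 : 0 < Module.finrank ℚ (fixedField D) := Module.finrank_pos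
  nlinarith

theorem fx_fd (F : IntermediateField ℚ ℂ) [FiniteDimensional ℚ F] (D : Subgroup (F ≃ₐ[ℚ] F)) :
    FiniteDimensional ℚ (fx F D) := by
  have : FiniteDimensional ℚ (fixedField D) := inferInstance
  exact LinearEquiv.finiteDimensional (liftAlgEquiv (fixedField D)).toLinearEquiv

section group
variable {X : Type} [Group X] [Finite X]

open Classical in
/-- The subgroups of prime order. -/
noncomputable def primeSubs (X : Type) [Group X] [Finite X] [Fintype (Subgroup X)] : Finset (Subgroup X) :=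
  Finset.univ.filter fun D => (Nat.card D).Prime

theorem dvd_cases {q r d : ℕ} (hq : q.Prime) (hr : r.Prime) (h : d ∣ q * r) :
    d = 1 ∨ d = q ∨ d = r ∨ d = q * r := by
  obtain ⟨a, b, ha, hb, rfl⟩ := (Nat.dvd_mul).1 h
  rcases (Nat.dvd_prime hq).1 ha with rfl | rfl <;> rcases (Nat.dvd_prime hr).1 hb with rfl | rfl <;> simp

variable [Fintype (Subgroup X)]

theorem prime_part {q r : ℕ} (hq : q.Prime) (hr : r.Prime) (hc : Nat.card X = q * r)
    (hcyc : ¬ IsCyclic X) : IsPart (⊤ : Subgroup X) (fun D : primeSubs X => D.1) := by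
  classical
  refine ⟨fun _ => le_top, fun g _ hg => ?_⟩
  have h1 : Nat.card (Subgroup.zpowers g) = orderOf g := Nat.card_zpowers g
  have h2 : (orderOf g).Prime := by
    have h3 : orderOf g ∣ q * r := by rw [← hc]; exact orderOf_dvd_natCard g
    rcases dvd_cases hq hr h3 with h | h | h | h
    · exact absurd (orderOf_eq_one_iff.1 h) hg
    · rw [h]; exact hq
    · rw [h]; exact hr
    · exfalso
      apply hcyc
      exact isCyclic_of_orderOf_eq_card g (by rw [h, hc])
  refine ⟨⟨Subgroup.zpowers g, ?_⟩, Subgroup.mem_zpowers g, ?_⟩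
  · simp only [primeSubs, Finset.mem_filter, Finset.mem_univ, true_and]
    rw [h1]; exact h2
  · rintro ⟨D, hD⟩ hgD
    simp only [primeSubs, Finset.mem_filter, Finset.mem_univ, true_and] at hD
    apply Subtype.ext
    have hle : Subgroup.zpowers g ≤ D := Subgroup.zpowers_le.2 hgD
    have h3 : Nat.card (Subgroup.zpowers g) ∣ Nat.card D := Subgroup.card_dvd_of_le hle
    rw [h1] at h3
    have h4 : orderOf g = Nat.card D := (Nat.prime_dvd_prime_iff_eq h2 hD).1 h3
    exact (Subgroup.eq_of_le_of_card_ge hle (by rw [h1, h4])).symm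

open Classical in
theorem part_count [Fintype X] {ι : Type} [Fintype ι] {Γ : Subgroup X} {D : ι → Subgroup X}
    (h : IsPart Γ D) : ∑ i, Nat.card (D i) + 1 = Nat.card Γ + Fintype.card ι := by
  have h1 := part_relation h (fun _ : X => Multiplicative.ofAdd 1 (α := ℕ))
  have hc : ∀ E : Subgroup X, ∏ g ∈ Finset.univ.filter (fun g : X => g ∈ E),
      (Multiplicative.ofAdd 1 : Multiplicative ℕ) = Multiplicative.ofAdd (Nat.card E) := by
    intro E
    rw [Finset.prod_const, ← ofAdd_nsmul, smul_eq_mul, mul_one]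
    congr 1
    rw [Nat.card_eq_fintype_card, Fintype.card_subtype]
  simp only [hc] at h1
  rw [← ofAdd_nsmul, smul_eq_mul, mul_one, ← ofAdd_add] at h1
  have h2 : ∏ i, Multiplicative.ofAdd (Nat.card (D i)) = Multiplicative.ofAdd (∑ i, Nat.card (D i)) :=
    (ofAdd_sum _ _).symm
  rw [h2, ← ofAdd_add] at h1
  exact Multiplicative.ofAdd.injective h1

theorem unique_big {q r : ℕ} (hq : q.Prime) (hqr : r < q) (hc : Nat.card X = q * r)
    {A B : Subgroup X} (hA : Nat.card A = q) (hB : Nat.card B = q) : A = B := by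
  by_contra hne
  have hinf : A ⊓ B = ⊥ := by
    have h1 : Nat.card (A ⊓ B : Subgroup X) ∣ q := by
      rw [← hA]; exact Subgroup.card_dvd_of_le inf_le_left
    rcases (Nat.dvd_prime hq).1 h1 with h | h
    · exact Subgroup.card_eq_one.1 h
    · exfalso
      apply hne
      have h2 : A ⊓ B = A := Subgroup.eq_of_le_of_card_ge inf_le_left (by rw [h, hA])
      have h3 : A ⊓ B = B := Subgroup.eq_of_le_of_card_ge inf_le_right (by rw [h, hB])
      rw [← h2, h3]
  have hinj : Function.Injective (fun x : A × B => (x.1 : X) * (x.2 : X)) := by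
    rintro ⟨a, b⟩ ⟨a', b'⟩ h
    have h1 : (a : X) * b = a' * b' := h
    have h2 : ((a' : X))⁻¹ * a = b' * (b : X)⁻¹ := by
      rw [inv_mul_eq_iff_eq_mul, ← mul_assoc, ← h1, mul_assoc, mul_inv_cancel, mul_one]
    have h3 : ((a' : X))⁻¹ * a ∈ A ⊓ B := by
      refine ⟨A.mul_mem (A.inv_mem a'.2) a.2, ?_⟩
      have : ((a' : X))⁻¹ * a ∈ B := by
        rw [h2]; exact B.mul_mem b'.2 (B.inv_mem b.2)
      exact this
    rw [hinf, Subgroup.mem_bot] at h3
    have h4 : (a : X) = a' := by rw [inv_mul_eq_one] at h3; exact h3.symm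
    have h5 : (b : X) = b' := by
      rw [h4] at h1
      exact mul_left_cancel h1
    exact Prod.ext (Subtype.ext h4) (Subtype.ext h5)
  have h6 := Nat.card_le_card_of_injective _ hinj
  rw [Nat.card_prod, hA, hB, hc] at h6
  have h7 := Nat.le_of_mul_le_mul_left h6 hq.pos
  omega

theorem prime_part_card_aux {q r : ℕ} (hq : q.Prime) (hr : r.Prime) (hqr : r ≤ q)
    (hc : Nat.card X = q * r) (hcyc : ¬ IsCyclic X) :
    Fintype.card (primeSubs X) = q + 1 := by
  classical
  have : Fintype X := Fintype.ofFinite X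
  have h1 := part_count (prime_part hq hr hc hcyc)
  have htop : Nat.card (⊤ : Subgroup X) = q * r := by rw [Subgroup.card_top, hc]
  rw [htop, Finset.univ_eq_attach] at h1
  have h2 : ∑ i ∈ (primeSubs X).attach, Nat.card i.1 = ∑ D ∈ primeSubs X, Nat.card D :=
    Finset.sum_attach (primeSubs X) (fun D => Nat.card D)
  rw [h2, Fintype.card_coe] at h1
  rw [Fintype.card_coe]
  have hor : ∀ D ∈ primeSubs X, Nat.card D = q ∨ Nat.card D = r := by
    intro D hD
    simp only [primeSubs, Finset.mem_filter, Finset.mem_univ, true_and] at hD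
    have h3 : Nat.card D ∣ q * r := by rw [← hc]; exact Subgroup.card_subgroup_dvd_card D
    rcases dvd_cases hq hr h3 with h | h | h | h
    · rw [h] at hD; exact absurd hD Nat.not_prime_one
    · exact Or.inl h
    · exact Or.inr h
    · exfalso
      rw [h] at hD
      exact Nat.not_prime_mul hq.one_lt.ne' hr.one_lt.ne' hD
  have hq1 := hq.two_le
  have hr1 := hr.two_le
  rcases hqr.lt_or_eq with hlt | heq
  · -- one subgroup of order `q`
    have hex : ∃ A ∈ primeSubs X, Nat.card A = q := by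
      obtain ⟨x, hx⟩ := exists_prime_orderOf_dvd_card' (G := X) q (hp := ⟨hq⟩)
        (by rw [hc]; exact dvd_mul_right q r)
      refine ⟨Subgroup.zpowers x, ?_, by rw [Nat.card_zpowers, hx]⟩
      simp only [primeSubs, Finset.mem_filter, Finset.mem_univ, true_and]
      rw [Nat.card_zpowers, hx]; exact hq
    obtain ⟨A, hA, hAq⟩ := hex
    have h3 : ∑ D ∈ primeSubs X, Nat.card D = q + ((primeSubs X).card - 1) * r := by
      rw [← Finset.add_sum_erase _ _ hA, hAq]
      congr 1
      rw [← Finset.card_erase_of_mem hA, Finset.sum_const_nat]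
      intro D hD
      rw [Finset.mem_erase] at hD
      rcases hor D hD.2 with h | h
      · exact absurd (unique_big hq hlt hc h hAq) hD.1
      · exact h
    have hpos : 1 ≤ (primeSubs X).card := Finset.card_pos.2 ⟨A, hA⟩
    obtain ⟨s, hs⟩ : ∃ s, (primeSubs X).card = s + 1 := ⟨_, (Nat.sub_add_cancel hpos).symm⟩
    obtain ⟨t, ht⟩ : ∃ t, r = t + 1 := ⟨r - 1, by omega⟩
    rw [h3, hs, Nat.add_sub_cancel] at h1
    rw [hs]
    have h4 : s * t = q * t := by
      rw [ht] at h1
      ring_nf at h1 ⊢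
      omega
    have h5 := Nat.eq_of_mul_eq_mul_right (by omega : 0 < t) h4
    omega
  · subst heq
    have h3 : ∑ D ∈ primeSubs X, Nat.card D = (primeSubs X).card * r := by
      rw [Finset.sum_const_nat]
      intro D hD
      rcases hor D hD with h | h <;> exact h
    rw [h3] at h1
    obtain ⟨t, ht⟩ : ∃ t, r = t + 1 := ⟨r - 1, by omega⟩
    have h4 : (primeSubs X).card * t = (r + 1) * t := by
      rw [ht] at h1 ⊢
      ring_nf at h1 ⊢
      omega
    exact Nat.eq_of_mul_eq_mul_right (by omega : 0 < t) h4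

/-- A non-cyclic group of order `q r` has a partition into `max q r + 1` subgroups of prime order. -/
theorem prime_part_card {q r : ℕ} (hq : q.Prime) (hr : r.Prime) (hc : Nat.card X = q * r)
    (hcyc : ¬ IsCyclic X) : Fintype.card (primeSubs X) = max q r + 1 := by
  rcases le_total r q with h | h
  · rw [max_eq_left h]
    exact prime_part_card_aux hq hr h hc hcyc
  · rw [max_eq_right h]
    exact prime_part_card_aux hr hq h (by rw [hc, mul_comm]) hcyc

theorem isPart_map {G : Type} [Group G] {Γ : Subgroup G} {ι : Type} {D : ι → Subgroup Γ}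
    (h : IsPart (⊤ : Subgroup Γ) D) : IsPart Γ (fun i => (D i).map Γ.subtype) := by
  refine ⟨fun i => ?_, fun g hg hg1 => ?_⟩
  · rintro _ ⟨x, _, rfl⟩
    exact x.2
  · obtain ⟨i, hi, hu⟩ := h.2 ⟨g, hg⟩ trivial (fun h0 => hg1 (congrArg Subtype.val h0))
    refine ⟨i, ⟨⟨g, hg⟩, hi, rfl⟩, fun j hj => hu j ?_⟩
    obtain ⟨x, hx, hxg⟩ := hj
    have : x = ⟨g, hg⟩ := Subtype.ext hxg
    rwa [← this]

end group

end Pool.Agent.X27.Cln
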