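import Pool.Agent.X27.Cln.Low

set_option autoImplicit false
set_option linter.unusedSectionVars false

/-! Generalised dihedral groups, and the dependence on the isomorphism class. -/

namespace Pool.Agent.X27.Cln

open NumberField IntermediateField

section dihedral
variable {G : Type} [Group G] {A B : Subgroup G} {c : G}

/-- The partition of the generalised dihedral group `B ⋊ ⟨c⟩`. -/
def dihD (B : Subgroup G) (c : G) : Option B → Subgroup G
  | none => B
  | some b => Subgroup.zpowers (b.1 * c)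

theorem mem_zpowers_invol {t g : G} (ht : t * t = 1) (h : g ∈ Subgroup.zpowers t) : g = 1 ∨ g = t := by
  obtain ⟨k, rfl⟩ := h
  rcases Int.even_or_odd' k with ⟨m, rfl | rfl⟩
  · left
    change t ^ (2 * m) = 1
    rw [zpow_mul, zpow_two, ht, one_zpow]
  · right
    change t ^ (2 * m + 1) = t
    rw [zpow_add, zpow_mul, zpow_two, ht, one_zpow, one_mul, zpow_one]

theorem dih_part (hB : ∀ b ∈ B, c * b * c = b⁻¹) (hc : c * c = 1) (hcB : c ∉ B) :
    ∃ Γ : Subgroup G, IsPart Γ (dihD B c) := by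
  have hci : c⁻¹ = c := inv_eq_of_mul_eq_one_right hc
  have hcb : ∀ b ∈ B, c * b = b⁻¹ * c := by
    intro b hb
    have := hB b hb
    calc c * b = c * b * (c * c) := by rw [hc, mul_one]
      _ = (c * b * c) * c := by group
      _ = b⁻¹ * c := by rw [this]
  let Γ : Subgroup G :=
    { carrier := {g | g ∈ B ∨ ∃ b ∈ B, g = b * c}
      mul_mem' := by
        rintro x y (hx | ⟨a, ha, rfl⟩) (hy | ⟨b, hb, rfl⟩)
        · exact Or.inl (B.mul_mem hx hy)
        · exact Or.inr ⟨x * b, B.mul_mem hx hb, by rw [mul_assoc]⟩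
        · refine Or.inr ⟨a * y⁻¹, B.mul_mem ha (B.inv_mem hy), ?_⟩
          rw [mul_assoc, hcb y hy, mul_assoc]
        · left
          have : a * c * (b * c) = a * b⁻¹ := by
            rw [mul_assoc, ← mul_assoc c b c, hB b hb]
          rw [this]
          exact B.mul_mem ha (B.inv_mem hb)
      one_mem' := Or.inl B.one_mem
      inv_mem' := by
        rintro x (hx | ⟨a, ha, rfl⟩)
        · exact Or.inl (B.inv_mem hx)
        · refine Or.inr ⟨a, ha, ?_⟩
          rw [mul_inv_rev, hci, hcb _ (B.inv_mem ha), inv_inv] }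
  have hsq : ∀ b ∈ B, (b * c) * (b * c) = 1 := by
    intro b hb
    rw [mul_assoc, ← mul_assoc c b c, hB b hb, mul_inv_cancel]
  have hnot : ∀ b ∈ B, b * c ∉ B := by
    intro b hb h
    apply hcB
    have := B.mul_mem (B.inv_mem hb) h
    rwa [inv_mul_cancel_left] at this
  refine ⟨Γ, ?_, ?_⟩
  · rintro (_ | b)
    · intro x hx
      exact Or.inl hx
    · change Subgroup.zpowers (b.1 * c) ≤ Γ
      rw [Subgroup.zpowers_le]
      exact Or.inr ⟨b.1, b.2, rfl⟩
  · rintro g (hg | ⟨b, hb, rfl⟩) hg1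
    · refine ⟨none, hg, ?_⟩
      rintro (_ | b) h
      · rfl
      · exfalso
        rcases mem_zpowers_invol (hsq b.1 b.2) h with h1 | h1
        · exact hg1 h1
        · exact hnot b.1 b.2 (h1 ▸ hg)
    · refine ⟨some ⟨b, hb⟩, Subgroup.mem_zpowers _, ?_⟩
      rintro (_ | b') h
      · exact absurd h (hnot b hb)
      · rcases mem_zpowers_invol (hsq b'.1 b'.2) h with h1 | h1
        · exact absurd h1 hg1
        · have h2 : b = b'.1 := mul_right_cancel h1
          congr 1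
          exact Subtype.ext h2.symm

/-- The quotient by `B` is abelian. -/
theorem comm_mem (hA : ∀ a ∈ A, ∀ b ∈ A, a * b = b * a) (hAc : ∀ g : G, g ∈ A ∨ g * c ∈ A)
    (hn : ∀ a ∈ A, c * a * c ∈ A)
    (hc : c * c = 1) (hB : ∀ a, a ∈ B ↔ a ∈ A ∧ c * a * c = a⁻¹) (g h : G) : g * h * g⁻¹ * h⁻¹ ∈ B := by
  have hci : c⁻¹ = c := inv_eq_of_mul_eq_one_right hc
  -- the commutators of `c` with `A`
  have h0 : ∀ a ∈ A, c * a * c * a⁻¹ ∈ B := by
    intro a ha
    rw [hB]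
    refine ⟨A.mul_mem (hn a ha) (A.inv_mem ha), ?_⟩
    have h1 := hA _ (hn a ha) _ (A.inv_mem ha)
    calc c * (c * a * c * a⁻¹) * c = (c * c) * a * (c * a⁻¹ * c) := by group
      _ = a * (c * a⁻¹ * c) := by rw [hc, one_mul]
      _ = (c * a * c * a⁻¹)⁻¹ := by
        rw [mul_inv_rev, mul_inv_rev, mul_inv_rev, inv_inv, hci]
        group
  have hcomm : ∀ a ∈ A, ∀ b ∈ B, a * b * a⁻¹ = b := by
    intro a ha b hb
    rw [hA a ha b ((hB b).1 hb).1]
    group
  have hcB : ∀ b ∈ B, c * b * c ∈ B := by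
    intro b hb
    rw [((hB b).1 hb).2]
    exact B.inv_mem hb
  have hform : ∀ g : G, g ∈ A ∨ ∃ a ∈ A, g = a * c := by
    intro g
    rcases hAc g with h | h
    · exact Or.inl h
    · refine Or.inr ⟨g * c, h, ?_⟩
      rw [mul_assoc, hc, mul_one]
  rcases hform g with hg | ⟨a, ha, rfl⟩ <;> rcases hform h with hh | ⟨b, hb, rfl⟩
  · have : g * h * g⁻¹ * h⁻¹ = 1 := by rw [hA g hg h hh]; group
    rw [this]; exact B.one_mem
  · -- `g b c g⁻¹ c b⁻¹`
    have h1 : g * (b * c) * g⁻¹ * (b * c)⁻¹ = (c * g⁻¹ * c * (g⁻¹)⁻¹) := by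
      rw [mul_inv_rev, hci]
      have h2 : g * (b * c) * g⁻¹ * (c * b⁻¹) = (g * b) * (c * g⁻¹ * c) * b⁻¹ := by group
      rw [h2, mul_assoc, hA _ (hn _ (A.inv_mem hg)) _ (A.inv_mem hb), hA g hg b hb]
      have h3 : b * g * (b⁻¹ * (c * g⁻¹ * c)) = (b * (g * b⁻¹)) * (c * g⁻¹ * c) := by group
      rw [h3, hA g hg _ (A.inv_mem hb)]
      have h4 : b * (b⁻¹ * g) * (c * g⁻¹ * c) = g * (c * g⁻¹ * c) := by group
      rw [h4, hA g hg _ (hn _ (A.inv_mem hg)), inv_inv]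
    rw [h1]
    exact h0 _ (A.inv_mem hg)
  · -- `a c h c a⁻¹ h⁻¹`
    have h1 : a * c * h * (a * c)⁻¹ * h⁻¹ = c * h * c * h⁻¹ := by
      rw [mul_inv_rev, hci]
      have h2 : a * c * h * (c * a⁻¹) * h⁻¹ = a * (c * h * c) * (a⁻¹ * h⁻¹) := by group
      rw [h2, hA _ (A.inv_mem ha) _ (A.inv_mem hh), hA a ha _ (hn h hh)]
      have h3 : c * h * c * a * (h⁻¹ * a⁻¹) = c * h * c * (a * h⁻¹ * a⁻¹) := by group
      rw [h3, hA a ha _ (A.inv_mem hh)]
      group
    rw [h1]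
    exact h0 h hh
  · -- `a c b c c a⁻¹ c b⁻¹`
    have h1 : a * c * (b * c) * (a * c)⁻¹ * (b * c)⁻¹ = (c * b * c * b⁻¹) * (c * a⁻¹ * c * (a⁻¹)⁻¹) := by
      rw [mul_inv_rev, mul_inv_rev, hci, inv_inv]
      have h2 : a * c * (b * c) * (c * a⁻¹) * (c * b⁻¹) = a * (c * b * (c * c) * a⁻¹ * c) * b⁻¹ := by group
      have h3 : c * b * (c * c) * a⁻¹ * c = (c * b * c) * (c * a⁻¹ * c) := by group
      rw [h2, h3]
      have h4 : a * (c * b * c * (c * a⁻¹ * c)) * b⁻¹ = (a * (c * b * c)) * ((c * a⁻¹ * c) * b⁻¹) := by group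
      rw [h4, hA a ha _ (hn b hb), hA _ (hn _ (A.inv_mem ha)) _ (A.inv_mem hb)]
      have h5 : c * b * c * a * (b⁻¹ * (c * a⁻¹ * c)) = (c * b * c) * (a * b⁻¹) * (c * a⁻¹ * c) := by group
      rw [h5, hA a ha _ (A.inv_mem hb)]
      have h6 : c * b * c * (b⁻¹ * a) * (c * a⁻¹ * c) = (c * b * c * b⁻¹) * (a * (c * a⁻¹ * c)) := by group
      rw [h6, hA a ha _ (hn _ (A.inv_mem ha))]
    rw [h1]
    exact B.mul_mem (h0 b hb) (h0 _ (A.inv_mem ha))

end dihedral

end Pool.Agent.X27.Cln
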