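import Pool.Agent.X27.Cln.Red

set_option autoImplicit false
set_option linter.unusedSectionVars false

/-! The class group of a subfield of index prime to `p`. -/

namespace Pool.Agent.X27.Cln

open NumberField Ideal Pool.Agent.H471R2 IntermediateField

section
variable {L : Type} [Field L] [NumberField L]

theorem ker_pow (K : IntermediateField ℚ L) (c : ClassGroup (𝓞 K))
    (hc : ClassGroup.extendedHom (𝓞 K) (𝓞 L) c = 1) : c ^ Module.finrank K L = 1 := by
  obtain ⟨J, rfl⟩ := ClassGroup.mk0_surjective c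
  rw [ClassGroup.extendedHom_mk0, ClassGroup.mk0_eq_one_iff] at hc
  obtain ⟨a, ha⟩ := (Submodule.isPrincipal_iff _).1 hc
  have ha' : J.1.map (algebraMap (𝓞 K) (𝓞 L)) = span {a} := ha
  have h1 := relNorm_algebraMap (𝓞 L) J.1
  rw [ha', relNorm_singleton] at h1
  have hdeg : Module.finrank (𝓞 K) (𝓞 L) = Module.finrank K L :=
    (IsFractionRing.finrank_eq (𝓞 K) K (𝓞 L) L).symm
  rw [hdeg] at h1
  rw [← map_pow, ClassGroup.mk0_eq_one_iff]
  have h2 : (((J ^ Module.finrank K L : nonZeroDivisors (Ideal (𝓞 K)))) : Ideal (𝓞 K)) =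
      span {Algebra.intNorm (𝓞 K) (𝓞 L) a} := by
    rw [h1]; rfl
  rw [h2]
  exact ⟨⟨_, rfl⟩⟩

theorem padic_ge (K : IntermediateField ℚ L) {p : ℕ} [hp : Fact p.Prime]
    (hd : ¬ p ∣ Module.finrank K L) :
    padicValNat p (Nat.card (ClassGroup (𝓞 K))) ≤ padicValNat p (Nat.card (ClassGroup (𝓞 L))) := by
  set φ := ClassGroup.extendedHom (𝓞 K) (𝓞 L) with hφ
  have h2 : Nat.card (ClassGroup (𝓞 K)) = Nat.card φ.ker * Nat.card φ.range := by
    rw [mul_comm]
    have := Subgroup.card_eq_card_quotient_mul_card_subgroup φ.ker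
    rw [this, Nat.card_congr (QuotientGroup.quotientKerEquivRange φ).toEquiv]
  have h3 : ¬ p ∣ Nat.card φ.ker := by
    intro h
    obtain ⟨x, hx⟩ := exists_prime_orderOf_dvd_card' p h
    have h4 : x ^ Module.finrank K L = 1 := by
      apply Subtype.ext
      exact ker_pow K x.1 x.2
    rw [← orderOf_dvd_iff_pow_eq_one, hx] at h4
    exact hd h4
  rw [h2, padicValNat.mul Nat.card_pos.ne' Nat.card_pos.ne', padicValNat.eq_zero_of_not_dvd h3, zero_add]
  have e : ∀ n, padicValNat p n = n.factorization p := fun n => (Nat.factorization_def n hp.out).symm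
  simp only [e]
  exact (Nat.factorization_le_iff_dvd Nat.card_pos.ne' Nat.card_pos.ne').2
    (Subgroup.card_subgroup_dvd_card φ.range) p

end

section
variable {F L : Type} [Field F] [NumberField F] [Field L] [NumberField L] [Algebra F L]

theorem not_dvd_comp (D : Subgroup (F ≃ₐ[ℚ] F)) (E : IntermediateField ℚ L)
    (h : (emb F L).fieldRange ⊔ E = ⊤) {p : ℕ} [hp : Fact p.Prime] (hd : ¬ p ∣ Nat.card D) :
    ¬ p ∣ Module.finrank (comp D E) L := by
  intro h0
  have hgal := galois_comp D E h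
  rw [← IsGalois.card_aut_eq_finrank] at h0
  obtain ⟨f, hf⟩ := exists_prime_orderOf_dvd_card' p h0
  let g : L ≃ₐ[ℚ] L := f.restrictScalars ℚ
  have hg : g ∈ (comp D E).fixingSubgroup := by
    rw [IntermediateField.mem_fixingSubgroup_iff]
    intro y hy
    exact f.commutes ⟨y, hy⟩
  obtain ⟨γ, hγ, hγg⟩ := restrict_exists D E g hg
  have hpow : ∀ (n : ℕ) (x : F), (f ^ n) (algebraMap F L x) = algebraMap F L ((γ ^ n) x) := by
    intro n
    induction n with
    | zero => intro x; rfl
    | succ n ih =>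
      intro x
      rw [pow_succ, pow_succ]
      change (f ^ n) (f (algebraMap F L x)) = algebraMap F L ((γ ^ n) (γ x))
      rw [← ih]
      congr 1
      exact hγg x
  have hγp : γ ^ p = 1 := by
    ext x
    have h1 := hpow p x
    rw [← hf, pow_orderOf_eq_one, hf] at h1
    exact ((algebraMap F L).injective h1).symm
  have hne : γ ≠ 1 := by
    rintro rfl
    have hf1 : f = 1 := by
      have h1 : (⊤ : IntermediateField ℚ L) ≤ fixedField (Subgroup.zpowers g) := by
        rw [← h]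
        refine sup_le ?_ ?_
        · rintro _ ⟨x, rfl⟩
          rw [mem_fixedField_iff]
          intro f' hf'
          have h2 : Subgroup.zpowers g ≤ (emb F L).fieldRange.fixingSubgroup := by
            rw [Subgroup.zpowers_le, IntermediateField.mem_fixingSubgroup_iff]
            rintro _ ⟨y, rfl⟩
            exact hγg y
          exact (IntermediateField.mem_fixingSubgroup_iff _ f').1 (h2 hf') _ ⟨x, rfl⟩
        · intro x hx
          rw [mem_fixedField_iff]
          intro f' hf'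
          have h2 : Subgroup.zpowers g ≤ E.fixingSubgroup := by
            rw [Subgroup.zpowers_le]
            exact IntermediateField.fixingSubgroup_antitone (le_sup_right : E ≤ comp D E) hg
          exact (IntermediateField.mem_fixingSubgroup_iff _ f').1 (h2 hf') _ hx
      ext x
      have h2 := h1 (show x ∈ (⊤ : IntermediateField ℚ L) from trivial)
      rw [mem_fixedField_iff] at h2
      exact h2 g (Subgroup.mem_zpowers g)
    rw [hf1, orderOf_one] at hf
    exact hp.out.one_lt.ne hf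
  have h5 : orderOf γ = p := orderOf_eq_prime hγp hne
  apply hd
  rw [← h5, ← Subgroup.orderOf_mk γ hγ]
  exact orderOf_dvd_natCard _

end

theorem padic_ge_cx (F E : IntermediateField ℚ ℂ) [FiniteDimensional ℚ F] [FiniteDimensional ℚ E]
    (D : Subgroup (F ≃ₐ[ℚ] F)) {p : ℕ} [Fact p.Prime] (hd : ¬ p ∣ Nat.card D) :
    padicValNat p (Nat.card (ClassGroup (𝓞 ↥(fx F D ⊔ E)))) ≤
      padicValNat p (Nat.card (ClassGroup (𝓞 ↥(F ⊔ E)))) := by
  have nF : NumberField F := ⟨⟩
  have nE : NumberField E := ⟨⟩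
  have nL : NumberField ↥(F ⊔ E) := ⟨⟩
  let : Algebra F ↥(F ⊔ E) := (inclusion (le_sup_left : F ≤ F ⊔ E)).toRingHom.toAlgebra
  set E' : IntermediateField ℚ ↥(F ⊔ E) := restrict (le_sup_right : E ≤ F ⊔ E) with hE'
  have h1 : lift (emb F ↥(F ⊔ E)).fieldRange = F := by
    apply le_antisymm
    · rintro _ ⟨_, ⟨x, rfl⟩, rfl⟩
      exact x.2
    · intro x hx
      exact ⟨_, ⟨⟨x, hx⟩, rfl⟩, rfl⟩
  have h2 : (emb F ↥(F ⊔ E)).fieldRange ⊔ E' = ⊤ := by
    apply lift_injective (F ⊔ E)
    refine (IntermediateField.map_sup _ _ (F ⊔ E).val).trans ?_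
    refine (congrArg₂ (· ⊔ ·) h1 (lift_restrict (le_sup_right : E ≤ F ⊔ E))).trans ?_
    exact (lift_top ℚ (F ⊔ E)).symm
  refine le_trans (le_of_eq ?_) (padic_ge (comp D E') (not_dvd_comp D E' h2 hd))
  congr 1
  have h4 : ((fixedField D).map (emb F ↥(F ⊔ E))).map (F ⊔ E).val = fx F D := by
    apply le_antisymm
    · rintro _ ⟨_, ⟨x, hx, rfl⟩, rfl⟩
      exact ⟨x, hx, rfl⟩
    · rintro _ ⟨x, hx, rfl⟩
      exact ⟨_, ⟨x, hx, rfl⟩, rfl⟩
  have h3 : (comp D E').map (F ⊔ E).val = fx F D ⊔ E := by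
    refine (IntermediateField.map_sup _ _ (F ⊔ E).val).trans ?_
    exact congrArg₂ (· ⊔ ·) h4 (lift_restrict (le_sup_right : E ≤ F ⊔ E))
  have hfx : FiniteDimensional ℚ (fx F D) := fx_fd F D
  have hfin : FiniteDimensional ℚ ↥(fx F D ⊔ E) := inferInstance
  symm
  apply card_congr_set
  intro x
  rw [← h3]
  constructor
  · rintro ⟨y, hy, rfl⟩
    exact ⟨y, hy, rfl⟩
  · rintro ⟨y, hy, rfl⟩
    exact ⟨y, hy, rfl⟩

end Pool.Agent.X27.Cln
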