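import Pool.Agent.H471R2.Bq.Basic

set_option autoImplicit false
set_option linter.unusedSectionVars false

/-! Norm relations for class groups of number fields. -/

namespace Pool.Agent.X27.Cln

open NumberField Ideal Pool.Agent.H471R2

variable {L : Type} [Field L] [NumberField L]

section norm
variable (D : Subgroup (L ≃ₐ[ℚ] L))

/-- The fixed field. -/
abbrev Kf (D : Subgroup (L ≃ₐ[ℚ] L)) : IntermediateField ℚ L := IntermediateField.fixedField D

noncomputable instance : NumberField (Kf D) := NumberField.of_intermediateField _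

open Classical in
theorem intNorm_prod [Fintype D] (x : 𝓞 L) :
    algebraMap (𝓞 (Kf D)) (𝓞 L) (Algebra.intNorm (𝓞 (Kf D)) (𝓞 L) x) = ∏ σ : D, ra σ.1 x := by
  apply RingOfIntegers.ext
  have h1 : ((algebraMap (𝓞 (Kf D)) (𝓞 L) (Algebra.intNorm (𝓞 (Kf D)) (𝓞 L) x) : 𝓞 L) : L) =
      algebraMap (Kf D) L (algebraMap (𝓞 (Kf D)) (Kf D) (Algebra.intNorm (𝓞 (Kf D)) (𝓞 L) x)) := rfl
  rw [h1, Algebra.algebraMap_intNorm (A := 𝓞 (Kf D)) (K := Kf D) (L := L) (B := 𝓞 L)]
  have hgal : IsGalois (Kf D) L := IsGalois.of_fixed_field L D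
  rw [Algebra.norm_eq_prod_automorphisms]
  have h2 : ((∏ σ : D, ra σ.1 x : 𝓞 L) : L) = ∏ σ : D, σ.1 (x : L) := by
    change algebraMap (𝓞 L) L (∏ σ : D, ra σ.1 x) = _
    rw [map_prod]
    rfl
  rw [h2]
  exact (Fintype.prod_equiv (IntermediateField.subgroupEquivAlgEquiv D).toEquiv _ _
    (fun σ => rfl)).symm

open Classical in
/-- The product of the conjugates of an ideal under `D` comes from the fixed field of `D`. -/
theorem prod_ia_sub [Fintype D] (I : Ideal (𝓞 L)) :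
    ∏ σ : D, ia σ.1 I = (relNorm (𝓞 (Kf D)) I).map (algebraMap (𝓞 (Kf D)) (𝓞 L)) := by
  by_cases hI : I = ⊥
  · subst hI
    have h1 : ia (1 : D).1 (⊥ : Ideal (𝓞 L)) = 0 := by
      change ia (1 : L ≃ₐ[ℚ] L) ⊥ = 0
      rw [ia_one]; rfl
    rw [Finset.prod_eq_zero (Finset.mem_univ 1) h1, relNorm_bot, Ideal.map_bot]
    rfl
  have hle : (relNorm (𝓞 (Kf D)) I).map (algebraMap (𝓞 (Kf D)) (𝓞 L)) ≤ ∏ σ : D, ia σ.1 I := by
    rw [map_relNorm, Ideal.span_le]
    rintro _ ⟨x, hx, rfl⟩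
    simp only [Function.comp_apply, SetLike.mem_coe]
    rw [intNorm_prod]
    exact Ideal.prod_mem_prod (fun σ _ => ra_mem_ia σ.1 hx)
  obtain ⟨C, hC⟩ := Ideal.dvd_iff_le.2 hle
  have hn := congrArg Ideal.absNorm hC
  rw [map_mul, absNorm_algebraMap, absNorm_relNorm, map_prod] at hn
  simp only [absNorm_ia, Finset.prod_const, Finset.card_univ] at hn
  have hdeg : Module.finrank (𝓞 (Kf D)) (𝓞 L) = Fintype.card D := by
    have h1 : Module.finrank (𝓞 (Kf D)) (𝓞 L) = Module.finrank (Kf D) L :=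
      (IsFractionRing.finrank_eq (𝓞 (Kf D)) (Kf D) (𝓞 L) L).symm
    rw [h1, ← Nat.card_eq_fintype_card]
    exact IntermediateField.finrank_fixedField_eq_card D
  rw [hdeg] at hn
  have h0 : absNorm I ^ Fintype.card D ≠ 0 := pow_ne_zero _ (by
    rwa [Ne, Ideal.absNorm_eq_zero_iff])
  have h1 : absNorm C = 1 := by
    have : absNorm I ^ Fintype.card D * 1 = absNorm I ^ Fintype.card D * absNorm C := by
      rw [mul_one]; exact hn
    exact (Nat.eq_of_mul_eq_mul_left (Nat.pos_of_ne_zero h0) this).symm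
  rw [Ideal.absNorm_eq_one_iff] at h1
  rw [hC, h1, mul_top]

/-- The image of the class group of the fixed field. -/
noncomputable def img : Subgroup (ClassGroup (𝓞 L)) :=
  (ClassGroup.extendedHom (𝓞 (Kf D)) (𝓞 L)).range

theorem prod_ne_bot {ι : Type*} (s : Finset ι) (f : ι → L ≃ₐ[ℚ] L) {I : Ideal (𝓞 L)} (h : I ≠ ⊥) :
    ∏ i ∈ s, ia (f i) I ≠ ⊥ := by
  rw [← Ideal.zero_eq_bot, Finset.prod_ne_zero_iff]
  intro i _
  exact ia_ne_bot _ h

theorem cl_congr' {I J : Ideal (𝓞 L)} (h : I = J) (hI : I ≠ ⊥) (hJ : J ≠ ⊥) : cl I hI = cl J hJ := by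
  subst h; rfl

theorem cl_prod {ι : Type*} (s : Finset ι) (f : ι → L ≃ₐ[ℚ] L) {I : Ideal (𝓞 L)} (h : I ≠ ⊥) :
    cl (∏ i ∈ s, ia (f i) I) (prod_ne_bot s f h) = ∏ i ∈ s, ca (f i) (cl I h) := by
  classical
  induction s using Finset.induction_on with
  | empty =>
    refine Eq.trans ?_ Finset.prod_empty.symm
    rw [cl_eq_one_iff]
    exact ⟨1, one_ne_zero, by rw [Ideal.span_singleton_one, Finset.prod_empty, Ideal.one_eq_top]⟩
  | insert a s ha ih =>
    refine Eq.trans ?_ (Finset.prod_insert ha).symm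
    rw [← ih, ca_cl, ← cl_mul]
    exact cl_congr' (Finset.prod_insert ha) _ _

open Classical in
/-- The norm of an ideal class comes from the fixed field. -/
theorem norm_mem_img [Fintype D] (c : ClassGroup (𝓞 L)) : ∏ σ : D, ca σ.1 c ∈ img D := by
  obtain ⟨I, hI, rfl⟩ := cl_surj c
  rw [← cl_prod Finset.univ (fun σ : D => σ.1) hI]
  have hJ : relNorm (𝓞 (Kf D)) I ≠ ⊥ := by rwa [Ne, relNorm_eq_bot_iff]
  refine ⟨ClassGroup.mk0 ⟨relNorm (𝓞 (Kf D)) I, mem_nonZeroDivisors_iff_ne_zero.2 hJ⟩, ?_⟩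
  rw [ClassGroup.extendedHom_mk0]
  unfold cl
  congr 1
  apply Subtype.ext
  exact (prod_ia_sub D I).symm

theorem img_anti {D D' : Subgroup (L ≃ₐ[ℚ] L)} (h : D ≤ D') : img D' ≤ img D := by
  rintro _ ⟨c, rfl⟩
  obtain ⟨J, rfl⟩ := ClassGroup.mk0_surjective c
  have hle : Kf D' ≤ Kf D := by
    intro x hx
    rw [IntermediateField.mem_fixedField_iff] at hx ⊢
    exact fun f hf => hx f (h hf)
  let φ : 𝓞 (Kf D') →+* 𝓞 (Kf D) :=
    RingOfIntegers.mapRingHom (IntermediateField.inclusion hle).toRingHom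
  have hφ : (algebraMap (𝓞 (Kf D)) (𝓞 L)).comp φ = algebraMap (𝓞 (Kf D')) (𝓞 L) := by
    ext x
    rfl
  have hinj : Function.Injective φ := by
    intro x y hxy
    have h1 := congrArg (algebraMap (𝓞 (Kf D)) (𝓞 L)) hxy
    have h2 : algebraMap (𝓞 (Kf D')) (𝓞 L) x = algebraMap (𝓞 (Kf D')) (𝓞 L) y := by
      rw [← hφ]; exact h1
    exact FaithfulSMul.algebraMap_injective _ _ h2
  have hJ : J.1.map φ ≠ ⊥ := by
    rw [Ne, Ideal.map_eq_bot_iff_of_injective hinj]
    exact mem_nonZeroDivisors_iff_ne_zero.1 J.2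
  refine ⟨ClassGroup.mk0 ⟨J.1.map φ, mem_nonZeroDivisors_iff_ne_zero.2 hJ⟩, ?_⟩
  rw [ClassGroup.extendedHom_mk0, ClassGroup.extendedHom_mk0]
  congr 1
  apply Subtype.ext
  change (J.1.map φ).map (algebraMap (𝓞 (Kf D)) (𝓞 L)) = J.1.map (algebraMap (𝓞 (Kf D')) (𝓞 L))
  rw [Ideal.map_map, hφ]

end norm

section partition
variable {G : Type*} [Group G]

/-- The subgroups `D i` form a partition of the group `Γ` (some of them may be trivial). -/
def IsPart {ι : Type*} (Γ : Subgroup G) (D : ι → Subgroup G) : Prop :=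
  (∀ i, D i ≤ Γ) ∧ ∀ g ∈ Γ, g ≠ 1 → ∃! i, g ∈ D i

open Classical in
theorem part_relation [Fintype G] {ι : Type*} [Fintype ι] {Γ : Subgroup G} {D : ι → Subgroup G}
    (h : IsPart Γ D) {M : Type*} [CommMonoid M] (f : G → M) :
    (∏ i, ∏ g ∈ Finset.univ.filter (fun g => g ∈ D i), f g) * f 1 =
      (∏ g ∈ Finset.univ.filter (fun g => g ∈ Γ), f g) * f 1 ^ Fintype.card ι := by
  simp_rw [Finset.prod_filter]
  rw [Finset.prod_comm]
  have h1 : ∀ g : G, (∏ i : ι, if g ∈ D i then f g else 1) * (if g = 1 then f 1 else 1) =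
      (if g ∈ Γ then f g else 1) * if g = 1 then f 1 ^ Fintype.card ι else 1 := by
    intro g
    by_cases hg : g = 1
    · subst hg
      simp only [one_mem, if_true, Finset.prod_const, Finset.card_univ]
      rw [mul_comm]
    · rw [if_neg hg, if_neg hg, mul_one, mul_one]
      by_cases hg2 : g ∈ Γ
      · obtain ⟨i, hi, hu⟩ := h.2 g hg2 hg
        rw [if_pos hg2, Finset.prod_eq_single i]
        · rw [if_pos hi]
        · intro j _ hj
          rw [if_neg]
          intro hj2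
          exact hj (hu j hj2)
        · intro hi2
          exact absurd (Finset.mem_univ i) hi2
      · rw [if_neg hg2]
        refine Finset.prod_eq_one fun i _ => ?_
        rw [if_neg]
        intro hi
        exact hg2 (h.1 i hi)
  have h2 := Finset.prod_congr (rfl : (Finset.univ : Finset G) = Finset.univ) fun g _ => h1 g
  rw [Finset.prod_mul_distrib, Finset.prod_mul_distrib] at h2
  simpa using h2

end partition

section main
variable {ι : Type} [Fintype ι] {Γ : Subgroup (L ≃ₐ[ℚ] L)} {D : ι → Subgroup (L ≃ₐ[ℚ] L)}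

/-- The `(k-1)`-st power of an ideal class is a product of ideal classes of the fixed fields. -/
theorem pow_mem [Nonempty ι] (h : IsPart Γ D) (c : ClassGroup (𝓞 L)) :
    ∃ a : (i : ι) → ClassGroup (𝓞 (Kf (D i))), c ^ (Fintype.card ι - 1) =
      ∏ i, ClassGroup.extendedHom (𝓞 (Kf (D i))) (𝓞 L) (a i) := by
  classical
  have hfin : Fintype (L ≃ₐ[ℚ] L) := Fintype.ofFinite _
  have h1 := part_relation h (fun σ => ca σ c)
  have hconv : ∀ E : Subgroup (L ≃ₐ[ℚ] L),
      ∏ σ ∈ Finset.univ.filter (fun σ : L ≃ₐ[ℚ] L => σ ∈ E), ca σ c = ∏ σ : E, ca σ.1 c :=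
    fun E => Finset.prod_subtype _ (fun σ => by simp) _
  have hone : ca (1 : L ≃ₐ[ℚ] L) c = c := by
    obtain ⟨I, hI, rfl⟩ := cl_surj c
    rw [ca_cl]
    exact cl_congr' (ia_one I) _ _
  simp only [hconv, hone] at h1
  choose a ha using fun i => norm_mem_img (D i) c
  obtain ⟨i0⟩ := (inferInstance : Nonempty ι)
  obtain ⟨b, hb⟩ := img_anti (h.1 i0) (norm_mem_img Γ c)
  let t : (i : ι) → ClassGroup (𝓞 (Kf (D i))) := Pi.mulSingle i0 b⁻¹
  refine ⟨fun i => a i * t i, ?_⟩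
  have h2 : ∏ i, ClassGroup.extendedHom (𝓞 (Kf (D i))) (𝓞 L) (a i * t i) =
      (∏ i, ∏ σ : D i, ca σ.1 c) * (∏ σ : Γ, ca σ.1 c)⁻¹ := by
    have h3 : ∀ i, ClassGroup.extendedHom (𝓞 (Kf (D i))) (𝓞 L) (a i * t i) =
        (∏ σ : D i, ca σ.1 c) * ClassGroup.extendedHom (𝓞 (Kf (D i))) (𝓞 L) (t i) := by
      intro i
      rw [map_mul, ha]
    rw [Finset.prod_congr rfl fun i _ => h3 i, Finset.prod_mul_distrib]
    congr 1
    rw [Finset.prod_eq_single i0]
    · change ClassGroup.extendedHom _ _ ((Pi.mulSingle i0 b⁻¹ : (i : ι) →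
        ClassGroup (𝓞 (Kf (D i)))) i0) = _
      rw [Pi.mulSingle_eq_same, map_inv, hb]
    · intro j _ hj
      change ClassGroup.extendedHom _ _ ((Pi.mulSingle i0 b⁻¹ : (i : ι) →
        ClassGroup (𝓞 (Kf (D i)))) j) = _
      rw [Pi.mulSingle_eq_of_ne hj, map_one]
    · intro hi
      exact absurd (Finset.mem_univ _) hi
  rw [h2]
  have hk : 1 ≤ Fintype.card ι := Fintype.card_pos
  have h4 : c ^ Fintype.card ι = c ^ (Fintype.card ι - 1) * c := by
    rw [← pow_succ, Nat.sub_add_cancel hk]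
  rw [h4, ← mul_assoc] at h1
  have h5 := mul_right_cancel h1
  rw [h5, mul_comm (∏ σ : Γ, ca σ.1 c), mul_assoc, mul_inv_cancel, mul_one]

/-- The `p`-part of the class number, for `p` prime to `k - 1`. -/
theorem padic_le [Nonempty ι] (h : IsPart Γ D) {p : ℕ} [hp : Fact p.Prime]
    (hk : ¬ p ∣ Fintype.card ι - 1) :
    padicValNat p (Nat.card (ClassGroup (𝓞 L))) ≤
      ∑ i, padicValNat p (Nat.card (ClassGroup (𝓞 (Kf (D i))))) := by
  classical
  let ψ : ((i : ι) → ClassGroup (𝓞 (Kf (D i)))) →* ClassGroup (𝓞 L) :=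
    { toFun := fun a => ∏ i, ClassGroup.extendedHom (𝓞 (Kf (D i))) (𝓞 L) (a i)
      map_one' := by simp
      map_mul' := by
        intro a b
        simp [Finset.prod_mul_distrib] }
  let π : ClassGroup (𝓞 L) →* ClassGroup (𝓞 L) := powMonoidHom (Fintype.card ι - 1)
  have hle : π.range ≤ ψ.range := by
    rintro _ ⟨c, rfl⟩
    obtain ⟨a, ha⟩ := pow_mem h c
    exact ⟨a, ha.symm⟩
  have hne : ∀ i, Nat.card (ClassGroup (𝓞 (Kf (D i)))) ≠ 0 := fun i => Nat.card_pos.ne'
  have h1 : Nat.card π.range ∣ ∏ i, Nat.card (ClassGroup (𝓞 (Kf (D i)))) := by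
    refine (Subgroup.card_dvd_of_le hle).trans ?_
    rw [← Nat.card_pi]
    exact Subgroup.card_range_dvd ψ
  have h2 : Nat.card (ClassGroup (𝓞 L)) = Nat.card π.ker * Nat.card π.range := by
    rw [mul_comm]
    have := Subgroup.card_eq_card_quotient_mul_card_subgroup π.ker
    rw [this, Nat.card_congr (QuotientGroup.quotientKerEquivRange π).toEquiv]
  have h3 : ¬ p ∣ Nat.card π.ker := by
    intro hd
    obtain ⟨x, hx⟩ := exists_prime_orderOf_dvd_card' p hd
    have h4 : x ^ (Fintype.card ι - 1) = 1 := by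
      apply Subtype.ext
      exact x.2
    rw [← orderOf_dvd_iff_pow_eq_one, hx] at h4
    exact hk h4
  rw [h2, padicValNat.mul Nat.card_pos.ne' Nat.card_pos.ne', padicValNat.eq_zero_of_not_dvd h3, zero_add]
  have e : ∀ n, padicValNat p n = n.factorization p := fun n => (Nat.factorization_def n hp.out).symm
  simp only [e]
  have h5 := (Nat.factorization_le_iff_dvd Nat.card_pos.ne'
    (Finset.prod_ne_zero_iff.2 fun i _ => hne i)).2 h1 p
  rw [Nat.factorization_prod_apply fun i _ => hne i] at h5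
  exact h5

end main

end Pool.Agent.X27.Cln
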