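import Pool.Agent.X27.Cln.Low

set_option autoImplicit false
set_option linter.unusedSectionVars false

/-! The `p`-rank of the class group modulo the primes above `p`. -/

namespace Pool.Agent.X27.Cln

open NumberField Ideal Pool.Agent.H471R2 IntermediateField

section
variable (p : ℕ) (L : Type) [Field L] [NumberField L]

/-- The subgroup generated by the classes of the prime ideals above `p`. -/
noncomputable def Sp : Subgroup (ClassGroup (𝓞 L)) :=
  Subgroup.closure {c : ClassGroup (𝓞 L) | ∃ I : nonZeroDivisors (Ideal (𝓞 L)),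
    (I : Ideal (𝓞 L)).IsPrime ∧ ((p : 𝓞 L)) ∈ (I : Ideal (𝓞 L)) ∧ ClassGroup.mk0 I = c}

variable {p} {L}

theorem span_pow_ne [hp : Fact p.Prime] (n : ℕ) : (span {(p : 𝓞 L)}) ^ n ≠ ⊥ := by
  have h1 : (p : 𝓞 L) ≠ 0 := Nat.cast_ne_zero.2 hp.out.ne_zero
  have h2 : span {(p : 𝓞 L)} ≠ ⊥ := by
    rw [Ne, Ideal.span_singleton_eq_bot]
    exact h1
  exact pow_ne_zero n h2

/-- Ideals dividing a power of `p` have classes in `Sp`. -/
theorem cl_mem_Sp [Fact p.Prime] (n : ℕ) (J : Ideal (𝓞 L)) :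
    ∀ (h : J ≠ ⊥), J ∣ (span {(p : 𝓞 L)}) ^ n → cl J h ∈ Sp p L := by
  refine UniqueFactorizationMonoid.induction_on_prime (P := fun J => ∀ (h : J ≠ ⊥),
    J ∣ (span {(p : 𝓞 L)}) ^ n → cl J h ∈ Sp p L) J ?_ ?_ ?_
  · intro h
    exact absurd rfl h
  · intro x hx h _
    have : cl x h = 1 := by
      rw [cl_eq_one_iff]
      exact ⟨1, one_ne_zero, by rw [Ideal.span_singleton_one]; exact Ideal.isUnit_iff.1 hx⟩
    rw [this]
    exact one_mem _
  · intro a q ha hq ih h hd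
    have hq0 : q ≠ ⊥ := hq.ne_zero
    have h1 : cl (q * a) h = cl q hq0 * cl a ha := cl_mul q a hq0 ha
    rw [h1]
    refine mul_mem ?_ (ih ha (dvd_trans (dvd_mul_left a q) hd))
    apply Subgroup.subset_closure
    refine ⟨⟨q, mem_nonZeroDivisors_iff_ne_zero.2 hq0⟩, Ideal.isPrime_of_prime hq, ?_, rfl⟩
    have h2 : q ∣ span {(p : 𝓞 L)} := hq.dvd_of_dvd_pow (dvd_trans (dvd_mul_right q a) hd)
    exact Ideal.dvd_span_singleton.1 h2

theorem mem_Sp_iff [hp : Fact p.Prime] (c : ClassGroup (𝓞 L)) :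
    c ∈ Sp p L ↔ ∃ (n : ℕ) (J : Ideal (𝓞 L)) (h : J ≠ ⊥), J ∣ (span {(p : 𝓞 L)}) ^ n ∧ cl J h = c := by
  constructor
  · intro hc
    refine Subgroup.closure_induction (p := fun c _ => ∃ (n : ℕ) (J : Ideal (𝓞 L)) (h : J ≠ ⊥),
      J ∣ (span {(p : 𝓞 L)}) ^ n ∧ cl J h = c) ?_ ?_ ?_ ?_ hc
    · rintro c ⟨I, hI, hpI, rfl⟩
      refine ⟨1, I.1, nonZeroDivisors.ne_zero I.2, ?_, rfl⟩
      rw [pow_one]
      exact Ideal.dvd_span_singleton.2 hpI
    · refine ⟨0, 1, one_ne_zero, one_dvd _, ?_⟩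
      rw [cl_eq_one_iff]
      exact ⟨1, one_ne_zero, by rw [Ideal.span_singleton_one, Ideal.one_eq_top]⟩
    · rintro _ _ _ _ ⟨n, I, hI, hId, rfl⟩ ⟨m, J, hJ, hJd, rfl⟩
      refine ⟨n + m, I * J, mul_ne_zero hI hJ, ?_, ?_⟩
      · rw [pow_add]
        exact mul_dvd_mul hId hJd
      · exact cl_mul I J hI hJ
    · rintro _ _ ⟨n, I, hI, ⟨J, hJ⟩, rfl⟩
      have hJ0 : J ≠ ⊥ := by
        rintro rfl
        apply span_pow_ne (p := p) (L := L) n
        rw [hJ, Ideal.mul_bot]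
      refine ⟨n, J, hJ0, ⟨I, by rw [hJ, mul_comm]⟩, ?_⟩
      rw [eq_comm, inv_eq_iff_mul_eq_one, ← cl_mul I J hI hJ0]
      rw [cl_eq_one_iff]
      refine ⟨(p : 𝓞 L) ^ n, pow_ne_zero n (Nat.cast_ne_zero.2 hp.out.ne_zero), ?_⟩
      rw [← hJ, Ideal.span_singleton_pow]
  · rintro ⟨n, J, h, hd, rfl⟩
    exact cl_mem_Sp n J h hd

end

section rank
variable (p : ℕ) (L : Type) [Field L] [NumberField L]

/-- The number of elements of order dividing `p` of the class group modulo the primes above `p`. -/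
noncomputable def rk : ℕ := Nat.card {g : ClassGroup (𝓞 L) ⧸ Sp p L // g ^ p = 1}

theorem rk_eq_index : rk p L = (powMonoidHom p : ClassGroup (𝓞 L) ⧸ Sp p L →* _).range.index := by
  have h1 := Subgroup.card_mul_index (powMonoidHom p : ClassGroup (𝓞 L) ⧸ Sp p L →* _).ker
  have h2 := Subgroup.card_mul_index (powMonoidHom p : ClassGroup (𝓞 L) ⧸ Sp p L →* _).range
  rw [Subgroup.index_ker] at h1
  have h3 : rk p L = Nat.card (powMonoidHom p : ClassGroup (𝓞 L) ⧸ Sp p L →* _).ker := rfl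
  rw [h3]
  have hpos : 0 < Nat.card (powMonoidHom p : ClassGroup (𝓞 L) ⧸ Sp p L →* _).range := Nat.card_pos
  apply Nat.eq_of_mul_eq_mul_left hpos
  rw [h2, ← h1, mul_comm]

variable {p} {L}

/-- The map induced by the extension of ideals. -/
theorem ext_mem' [Fact p.Prime] (K : Type) [Field K] [NumberField K] [Algebra K L]
    {c : ClassGroup (𝓞 K)} (hc : c ∈ Sp p K) :
    ClassGroup.extendedHom (𝓞 K) (𝓞 L) c ∈ Sp p L := by
  rw [mem_Sp_iff] at hc ⊢
  obtain ⟨n, J, h, hd, rfl⟩ := hc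
  have hinj : Function.Injective (algebraMap (𝓞 K) (𝓞 L)) := FaithfulSMul.algebraMap_injective _ _
  refine ⟨n, J.map (algebraMap (𝓞 K) (𝓞 L)), ?_, ?_, ?_⟩
  · rwa [Ne, Ideal.map_eq_bot_iff_of_injective hinj]
  · obtain ⟨I, hI⟩ := hd
    refine ⟨I.map (algebraMap (𝓞 K) (𝓞 L)), ?_⟩
    rw [← Ideal.map_mul, ← hI, Ideal.map_pow, Ideal.map_span, Set.image_singleton, map_natCast]
  · unfold cl
    rw [ClassGroup.extendedHom_mk0]

theorem ext_mem [Fact p.Prime] (K : IntermediateField ℚ L) {c : ClassGroup (𝓞 K)} (hc : c ∈ Sp p K) :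
    ClassGroup.extendedHom (𝓞 K) (𝓞 L) c ∈ Sp p L := ext_mem' K hc

/-- The `d`-th power of a class that becomes a class of primes above `p`. -/
theorem norm_back [hp : Fact p.Prime] (K : Type) [Field K] [NumberField K] [Algebra K L]
    {c : ClassGroup (𝓞 K)} (hc : ClassGroup.extendedHom (𝓞 K) (𝓞 L) c ∈ Sp p L) :
    c ^ Module.finrank K L ∈ Sp p K := by
  obtain ⟨J, hJ, rfl⟩ := cl_surj c
  have hinj : Function.Injective (algebraMap (𝓞 K) (𝓞 L)) := FaithfulSMul.algebraMap_injective _ _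
  have hJm : J.map (algebraMap (𝓞 K) (𝓞 L)) ≠ ⊥ := by
    rwa [Ne, Ideal.map_eq_bot_iff_of_injective hinj]
  have h1 : ClassGroup.extendedHom (𝓞 K) (𝓞 L) (cl J hJ) = cl (J.map (algebraMap (𝓞 K) (𝓞 L))) hJm := by
    unfold cl
    rw [ClassGroup.extendedHom_mk0]
  rw [h1, mem_Sp_iff] at hc
  obtain ⟨n, I, hI, hId, hIc⟩ := hc
  rw [cl_eq_cl_iff] at hIc
  obtain ⟨x, y, hx, hy, hxy⟩ := hIc
  have hdeg : Module.finrank (𝓞 K) (𝓞 L) = Module.finrank K L :=
    (IsFractionRing.finrank_eq (𝓞 K) K (𝓞 L) L).symm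
  have h2 := congrArg (relNorm (𝓞 K)) hxy
  rw [map_mul, map_mul, relNorm_singleton, relNorm_singleton, relNorm_algebraMap, hdeg] at h2
  have hNI : relNorm (𝓞 K) I ≠ ⊥ := by rwa [Ne, relNorm_eq_bot_iff]
  have hNd : relNorm (𝓞 K) I ∣ (span {(p : 𝓞 K)}) ^ (Module.finrank K L * n) := by
    have h3 := map_dvd (relNorm (𝓞 K)) hId
    have h4 : (span {(p : 𝓞 L)}) ^ n = ((span {(p : 𝓞 K)}) ^ n).map (algebraMap (𝓞 K) (𝓞 L)) := by
      rw [Ideal.map_pow, Ideal.map_span, Set.image_singleton, map_natCast]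
    rw [h4, relNorm_algebraMap, hdeg, ← pow_mul, mul_comm] at h3
    exact h3
  have h5 : cl J hJ ^ Module.finrank K L = cl (relNorm (𝓞 K) I) hNI := by
    have hJp : J ^ Module.finrank K L ≠ ⊥ := pow_ne_zero _ hJ
    have h6 : cl J hJ ^ Module.finrank K L = cl (J ^ Module.finrank K L) hJp := by
      unfold cl
      rw [← map_pow]
      rfl
    rw [h6, eq_comm, cl_eq_cl_iff]
    have hne : ∀ x : 𝓞 L, x ≠ 0 → Algebra.intNorm (𝓞 K) (𝓞 L) x ≠ 0 := by
      intro x hx h0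
      have h7 : relNorm (𝓞 K) (span {x}) = ⊥ := by
        rw [relNorm_singleton, h0, Ideal.span_singleton_eq_bot]
      rw [relNorm_eq_bot_iff, Ideal.span_singleton_eq_bot] at h7
      exact hx h7
    exact ⟨_, _, hne x hx, hne y hy, h2⟩
  rw [h5]
  exact cl_mem_Sp _ _ hNI hNd

/-- The map on the class groups modulo the primes above `p`. -/
noncomputable def extq' [Fact p.Prime] (K : Type) [Field K] [NumberField K] [Algebra K L] :
    ClassGroup (𝓞 K) ⧸ Sp p K →* ClassGroup (𝓞 L) ⧸ Sp p L :=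
  QuotientGroup.map _ _ (ClassGroup.extendedHom (𝓞 K) (𝓞 L)) (fun _ hc => ext_mem' K hc)

theorem rk_ge' [hp : Fact p.Prime] (K : Type) [Field K] [NumberField K] [Algebra K L]
    (hd : ¬ p ∣ Module.finrank K L) : rk p K ≤ rk p L := by
  let f : {g : ClassGroup (𝓞 K) ⧸ Sp p K // g ^ p = 1} → {g : ClassGroup (𝓞 L) ⧸ Sp p L // g ^ p = 1} :=
    fun g => ⟨extq' K g.1, by rw [← map_pow, g.2, map_one]⟩
  refine Nat.card_le_card_of_injective f ?_
  rintro ⟨g, hg⟩ ⟨g', hg'⟩ h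
  apply Subtype.ext
  change g = g'
  have h1 : extq' (L := L) (p := p) K g = extq' K g' := congrArg Subtype.val h
  rw [← mul_inv_eq_one]
  set t := g * g'⁻¹ with ht
  have h2 : t ^ p = 1 := by
    rw [ht, mul_pow, inv_pow, hg, hg', inv_one, one_mul]
  have h3 : extq' (L := L) (p := p) K t = 1 := by
    rw [ht, map_mul, map_inv, h1, mul_inv_cancel]
  obtain ⟨c, hc⟩ := QuotientGroup.mk'_surjective _ t
  have h4 : t ^ Module.finrank K L = 1 := by
    rw [← hc] at h3 ⊢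
    rw [← map_pow, QuotientGroup.mk'_apply, QuotientGroup.eq_one_iff]
    apply norm_back (L := L)
    have h5 : ((ClassGroup.extendedHom (𝓞 K) (𝓞 L) c : ClassGroup (𝓞 L)) : ClassGroup (𝓞 L) ⧸ Sp p L) = 1 := h3
    rwa [QuotientGroup.eq_one_iff] at h5
  have hcop : Nat.gcd p (Module.finrank K L) = 1 := (Nat.Prime.coprime_iff_not_dvd hp.out).2 hd
  have h6 : orderOf t ∣ 1 := by
    rw [← hcop]
    exact Nat.dvd_gcd (orderOf_dvd_of_pow_eq_one h2) (orderOf_dvd_of_pow_eq_one h4)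
  exact orderOf_eq_one_iff.1 (Nat.dvd_one.1 h6)

theorem rk_congr [hp : Fact p.Prime] {A B : Type} [Field A] [NumberField A] [Field B] [NumberField B]
    (e : A ≃+* B) : rk p A = rk p B := by
  have key : ∀ {A B : Type} [Field A] [NumberField A] [Field B] [NumberField B], (A ≃+* B) →
      rk p A ≤ rk p B := by
    intro A B _ _ _ _ e
    let : Algebra A B := e.toRingHom.toAlgebra
    apply rk_ge' A
    have h1 : Function.Bijective (Algebra.ofId A B) := e.bijective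
    have h2 : Module.finrank A B = 1 := by
      rw [← (AlgEquiv.ofBijective _ h1).toLinearEquiv.finrank_eq, Module.finrank_self]
    rw [h2]
    exact hp.out.not_dvd_one
  exact le_antisymm (key e) (key e.symm)

/-- The map on the class groups modulo the primes above `p`. -/
noncomputable def extq [Fact p.Prime] (K : IntermediateField ℚ L) :
    ClassGroup (𝓞 K) ⧸ Sp p K →* ClassGroup (𝓞 L) ⧸ Sp p L :=
  QuotientGroup.map _ _ (ClassGroup.extendedHom (𝓞 K) (𝓞 L)) (fun _ hc => ext_mem K hc)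

theorem rk_le {ι : Type} [Fintype ι] {Γ : Subgroup (L ≃ₐ[ℚ] L)} {D : ι → Subgroup (L ≃ₐ[ℚ] L)}
    [Nonempty ι] (h : IsPart Γ D) [hp : Fact p.Prime] (hk : ¬ p ∣ Fintype.card ι - 1) :
    rk p L ≤ ∏ i, rk p (Kf (D i)) := by
  classical
  let B := (i : ι) → ClassGroup (𝓞 (Kf (D i))) ⧸ Sp p (Kf (D i))
  let A := ClassGroup (𝓞 L) ⧸ Sp p L
  let ψ : B →* A :=
    { toFun := fun a => ∏ i, extq (Kf (D i)) (a i)
      map_one' := Finset.prod_eq_one fun i _ => map_one (extq (Kf (D i)))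
      map_mul' := fun a b => (Finset.prod_congr rfl fun i _ =>
        map_mul (extq (Kf (D i))) (a i) (b i)).trans Finset.prod_mul_distrib }
  let π : A →* A ⧸ (powMonoidHom p : A →* A).range := QuotientGroup.mk' _
  have hsurj : Function.Surjective (π.comp ψ) := by
    intro y
    obtain ⟨z, rfl⟩ := QuotientGroup.mk'_surjective _ y
    obtain ⟨c, rfl⟩ := QuotientGroup.mk'_surjective _ z
    have hcop : IsCoprime ((Fintype.card ι - 1 : ℕ) : ℤ) (p : ℤ) := by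
      rw [Nat.isCoprime_iff_coprime]
      exact ((Nat.Prime.coprime_iff_not_dvd hp.out).2 hk).symm
    obtain ⟨u, v, huv⟩ := hcop
    obtain ⟨a, ha⟩ := pow_mem h c
    refine ⟨fun i => (QuotientGroup.mk' _ (a i)) ^ u, ?_⟩
    have h1 : ψ (fun i => (QuotientGroup.mk' (Sp p (Kf (D i))) (a i)) ^ u) =
        ((QuotientGroup.mk' (Sp p L) c) ^ (Fintype.card ι - 1)) ^ u := by
      have h2 : (fun i => (QuotientGroup.mk' (Sp p (Kf (D i))) (a i)) ^ u) =
        (fun i => (QuotientGroup.mk' (Sp p (Kf (D i))) (a i))) ^ u := rfl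
      rw [h2, map_zpow]
      congr 1
      rw [← map_pow, ha, map_prod]
      rfl
    rw [MonoidHom.comp_apply, h1]
    change π _ = π _
    rw [← mul_inv_eq_one, ← map_inv, ← map_mul]
    rw [QuotientGroup.mk'_apply, QuotientGroup.eq_one_iff]
    refine ⟨(QuotientGroup.mk' (Sp p L) c) ^ (-v), ?_⟩
    change ((QuotientGroup.mk' (Sp p L) c) ^ (-v)) ^ p = _
    rw [← zpow_natCast, ← zpow_mul, ← zpow_natCast, ← zpow_mul]
    rw [← zpow_neg_one, ← zpow_add]
    congr 1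
    linear_combination (-1 : ℤ) * huv
  have h1 : rk p L = (π.comp ψ).ker.index := by
    rw [Subgroup.index_ker, rk_eq_index]
    have : (π.comp ψ).range = ⊤ := MonoidHom.range_eq_top.2 hsurj
    rw [this, Subgroup.card_top]
    rfl
  have h2 : (powMonoidHom p : B →* B).range ≤ (π.comp ψ).ker := by
    rintro _ ⟨b, rfl⟩
    rw [MonoidHom.mem_ker]
    change π (ψ (b ^ p)) = 1
    rw [map_pow]
    change ((ψ b ^ p : A) : A ⧸ (powMonoidHom p : A →* A).range) = 1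
    rw [QuotientGroup.eq_one_iff]
    exact ⟨ψ b, rfl⟩
  have h3 : ∏ i, rk p (Kf (D i)) = (powMonoidHom p : B →* B).range.index := by
    have h4 := Subgroup.card_mul_index (powMonoidHom p : B →* B).ker
    have h5 := Subgroup.card_mul_index (powMonoidHom p : B →* B).range
    rw [Subgroup.index_ker] at h4
    have hpos : 0 < Nat.card (powMonoidHom p : B →* B).range := Nat.card_pos
    apply Nat.eq_of_mul_eq_mul_left hpos
    rw [h5, ← h4, mul_comm]
    congr 1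
    unfold rk
    rw [← Nat.card_pi]
    refine Nat.card_congr ?_
    exact
      { toFun := fun f => ⟨fun i => (f i).1, by
          rw [MonoidHom.mem_ker]
          funext i
          exact (f i).2⟩
        invFun := fun g i => ⟨g.1 i, congrFun g.2 i⟩
        left_inv := fun f => rfl
        right_inv := fun g => rfl }
  rw [h1, h3]
  refine Nat.le_of_dvd ?_ (Subgroup.index_dvd_of_le h2)
  exact Nat.pos_of_ne_zero Subgroup.index_ne_zero_of_finite

end rank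

section comp
variable {F L : Type} [Field F] [NumberField F] [Field L] [NumberField L] [Algebra F L]

theorem rk_le_comp {ι : Type} [Fintype ι] [Nonempty ι] {Γ : Subgroup (F ≃ₐ[ℚ] F)}
    {D : ι → Subgroup (F ≃ₐ[ℚ] F)} (hp : IsPart Γ D) (E : IntermediateField ℚ L)
    (h : (emb F L).fieldRange ⊔ E = ⊤) {p : ℕ} [Fact p.Prime] (hk : ¬ p ∣ Fintype.card ι - 1) :
    rk p L ≤ ∏ i, rk p (comp (D i) E) := by
  refine (rk_le (isPart_comp hp E h) hk).trans (le_of_eq ?_)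
  refine Finset.prod_congr rfl fun i _ => ?_
  exact rk_congr (equivOfEq (fixed_comp (D i) E h)).toRingEquiv

theorem rk_ge_comp (D : Subgroup (F ≃ₐ[ℚ] F)) (E : IntermediateField ℚ L)
    (h : (emb F L).fieldRange ⊔ E = ⊤) {p : ℕ} [hp : Fact p.Prime] (hd : ¬ p ∣ Nat.card D) :
    rk p (comp D E) ≤ rk p L := rk_ge' _ (not_dvd_comp D E h hd)

end comp

theorem rk_congr_set {p : ℕ} [Fact p.Prime] {A B : IntermediateField ℚ ℂ} {C : IntermediateField ℚ A}
    [NumberField A] [NumberField B] (h : ∀ x : ℂ, x ∈ B ↔ ∃ y : A, y ∈ C ∧ (y : ℂ) = x) :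
    rk p C = rk p B := by
  let f : C →+* B :=
    { toFun := fun y => ⟨(y.1 : ℂ), (h _).2 ⟨y.1, y.2, rfl⟩⟩
      map_mul' := fun _ _ => rfl
      map_add' := fun _ _ => rfl
      map_one' := rfl
      map_zero' := rfl }
  have hs : Function.Surjective f := by
    rintro ⟨x, hx⟩
    obtain ⟨y, hy, rfl⟩ := (h x).1 hx
    exact ⟨⟨y, hy⟩, rfl⟩
  exact rk_congr (RingEquiv.ofBijective f ⟨f.injective, hs⟩)

/-- The embedding of `F` in `F ⊔ E`. -/
theorem exists_setup (F E : IntermediateField ℚ ℂ) [NumberField F] [NumberField ↥(F ⊔ E)] :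
    ∃ (_ : Algebra F ↥(F ⊔ E)) (E' : IntermediateField ℚ ↥(F ⊔ E)), (emb F ↥(F ⊔ E)).fieldRange ⊔ E' = ⊤ ∧
      ∀ (D : Subgroup (F ≃ₐ[ℚ] F)) (x : ℂ), x ∈ fx F D ⊔ E ↔
        ∃ y : ↥(F ⊔ E), y ∈ comp D E' ∧ (y : ℂ) = x := by
  let : Algebra F ↥(F ⊔ E) := (inclusion (le_sup_left : F ≤ F ⊔ E)).toRingHom.toAlgebra
  refine ⟨this, restrict (le_sup_right : E ≤ F ⊔ E), ?_, ?_⟩
  · have h1 : lift (emb F ↥(F ⊔ E)).fieldRange = F := by
      apply le_antisymm
      · rintro _ ⟨_, ⟨x, rfl⟩, rfl⟩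
        exact x.2
      · intro x hx
        exact ⟨_, ⟨⟨x, hx⟩, rfl⟩, rfl⟩
    apply lift_injective (F ⊔ E)
    refine (IntermediateField.map_sup _ _ (F ⊔ E).val).trans ?_
    refine (congrArg₂ (· ⊔ ·) h1 (lift_restrict (le_sup_right : E ≤ F ⊔ E))).trans ?_
    exact (lift_top ℚ (F ⊔ E)).symm
  · intro D x
    have h4 : ((fixedField D).map (emb F ↥(F ⊔ E))).map (F ⊔ E).val = fx F D := by
      apply le_antisymm
      · rintro _ ⟨_, ⟨x, hx, rfl⟩, rfl⟩
        exact ⟨x, hx, rfl⟩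
      · rintro _ ⟨x, hx, rfl⟩
        exact ⟨_, ⟨x, hx, rfl⟩, rfl⟩
    have h3 : (comp D (restrict (le_sup_right : E ≤ F ⊔ E))).map (F ⊔ E).val = fx F D ⊔ E := by
      refine (IntermediateField.map_sup _ _ (F ⊔ E).val).trans ?_
      exact congrArg₂ (· ⊔ ·) h4 (lift_restrict (le_sup_right : E ≤ F ⊔ E))
    rw [← h3]
    constructor
    · rintro ⟨y, hy, rfl⟩
      exact ⟨y, hy, rfl⟩
    · rintro ⟨y, hy, rfl⟩
      exact ⟨y, hy, rfl⟩

theorem rk_le_cx (F E : IntermediateField ℚ ℂ) [NumberField F] [NumberField ↥(F ⊔ E)]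
    {ι : Type} [Fintype ι] [Nonempty ι] {Γ : Subgroup (F ≃ₐ[ℚ] F)} {D : ι → Subgroup (F ≃ₐ[ℚ] F)}
    (hp : IsPart Γ D) [∀ i, NumberField ↥(fx F (D i) ⊔ E)]
    {p : ℕ} [Fact p.Prime] (hk : ¬ p ∣ Fintype.card ι - 1) :
    rk p ↥(F ⊔ E) ≤ ∏ i, rk p ↥(fx F (D i) ⊔ E) := by
  obtain ⟨i1, E', h1, h2⟩ := exists_setup F E
  refine (rk_le_comp hp E' h1 hk).trans (le_of_eq ?_)
  exact Finset.prod_congr rfl fun i _ => rk_congr_set (h2 (D i))

theorem rk_ge_cx (F E : IntermediateField ℚ ℂ) [NumberField F] [NumberField ↥(F ⊔ E)]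
    (D : Subgroup (F ≃ₐ[ℚ] F)) [NumberField ↥(fx F D ⊔ E)] {p : ℕ} [Fact p.Prime]
    (hd : ¬ p ∣ Nat.card D) : rk p ↥(fx F D ⊔ E) ≤ rk p ↥(F ⊔ E) := by
  obtain ⟨i1, E', h1, h2⟩ := exists_setup F E
  rw [← rk_congr_set (h2 D)]
  exact rk_ge_comp D E' h1 hd

end Pool.Agent.X27.Cln
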