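import Pool.Agent.X27.Cln.Cx

set_option autoImplicit false
set_option linter.unusedSectionVars false

/-! The reduction to fields with a restricted group of automorphisms. -/

namespace Pool.Agent.X27.Cln

open NumberField IntermediateField

/-- Every subgroup of `Aut F` of order `q r`, `q` and `r` prime with `max q r ≠ p`, is cyclic. -/
def Good (p : ℕ) (F : IntermediateField ℚ ℂ) : Prop :=
  ∀ Γ : Subgroup (F ≃ₐ[ℚ] F), ∀ q r : ℕ, q.Prime → r.Prime → max q r ≠ p →
    Nat.card Γ = q * r → IsCyclic Γ

/-- A property which passes from the fixed fields of a partition to the field holds for `F` if it holds for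
the good subfields of `F`. -/
theorem reduce {p : ℕ} (hp : p.Prime) (P : IntermediateField ℚ ℂ → Prop)
    (h : ∀ (F : IntermediateField ℚ ℂ), FiniteDimensional ℚ F → ∀ (ι : Type) [Fintype ι] [Nonempty ι]
      (Γ : Subgroup (F ≃ₐ[ℚ] F)) (D : ι → Subgroup (F ≃ₐ[ℚ] F)), IsPart Γ D →
      ¬ p ∣ Fintype.card ι - 1 → (∀ i, P (fx F (D i))) → P F)
    (F : IntermediateField ℚ ℂ) [hF : FiniteDimensional ℚ F]
    (hM : ∀ M : IntermediateField ℚ ℂ, M ≤ F → Good p M → P M) : P F := by
  classical
  obtain ⟨n, hn⟩ : ∃ n, Module.finrank ℚ F = n := ⟨_, rfl⟩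
  induction n using Nat.strong_induction_on generalizing F with
  | _ n ih =>
    by_cases hg : Good p F
    · exact hM F le_rfl hg
    · unfold Good at hg
      push Not at hg
      obtain ⟨Γ, q, r, hq, hr, hmax, hc, hcyc⟩ := hg
      have hfin : Finite (F ≃ₐ[ℚ] F) := inferInstance
      have : Fintype (Subgroup Γ) := Fintype.ofFinite _
      have hpt := isPart_map (prime_part (X := Γ) hq hr hc hcyc)
      have hcard := prime_part_card (X := Γ) hq hr hc hcyc
      have hne : Nonempty (primeSubs Γ) := by
        rw [← Fintype.card_pos_iff, hcard]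
        exact Nat.succ_pos _
      refine h F hF (primeSubs Γ) Γ _ hpt ?_ ?_
      · rw [hcard, Nat.add_sub_cancel]
        intro hd
        have hm : (max q r).Prime := by
          rcases le_total q r with h1 | h1
          · rw [max_eq_right h1]; exact hr
          · rw [max_eq_left h1]; exact hq
        exact hmax ((Nat.prime_dvd_prime_iff_eq hp hm).1 hd).symm
      · rintro ⟨D, hD⟩
        simp only [primeSubs, Finset.mem_filter, Finset.mem_univ, true_and] at hD
        have hbot : D.map Γ.subtype ≠ ⊥ := by
          intro h0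
          have h1 : D = ⊥ := (Subgroup.map_eq_bot_iff_of_injective D Γ.subtype_injective).1 h0
          rw [h1, Subgroup.card_bot] at hD
          exact Nat.not_prime_one hD
        have hfd := fx_fd F (D.map Γ.subtype)
        refine ih _ ?_ (fx F (D.map Γ.subtype)) (fun M hMF hMg => ?_) rfl
        · rw [← hn]
          exact fx_finrank_lt F hbot
        · exact hM M (hMF.trans (fx_le F _)) hMg

/-- The same if the property also passes from the fixed field of an automorphism of order `p` to the field. -/
theorem reduce' {p : ℕ} (hp : p.Prime) (P : IntermediateField ℚ ℂ → Prop)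
    (h : ∀ (F : IntermediateField ℚ ℂ), FiniteDimensional ℚ F → ∀ (ι : Type) [Fintype ι] [Nonempty ι]
      (Γ : Subgroup (F ≃ₐ[ℚ] F)) (D : ι → Subgroup (F ≃ₐ[ℚ] F)), IsPart Γ D →
      ¬ p ∣ Fintype.card ι - 1 → (∀ i, P (fx F (D i))) → P F)
    (h' : ∀ (F : IntermediateField ℚ ℂ), FiniteDimensional ℚ F → ∀ D : Subgroup (F ≃ₐ[ℚ] F),
      Nat.card D = p → P (fx F D) → P F)
    (F : IntermediateField ℚ ℂ) [hF : FiniteDimensional ℚ F]
    (hM : ∀ M : IntermediateField ℚ ℂ, M ≤ F → Good p M → ¬ p ∣ Nat.card (M ≃ₐ[ℚ] M) → P M) : P F := by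
  classical
  obtain ⟨n, hn⟩ : ∃ n, Module.finrank ℚ F = n := ⟨_, rfl⟩
  induction n using Nat.strong_induction_on generalizing F with
  | _ n ih =>
    have hstep : ∀ D : Subgroup (F ≃ₐ[ℚ] F), D ≠ ⊥ → P (fx F D) := by
      intro D hD
      have hfd := fx_fd F D
      refine ih _ ?_ (fx F D) (fun M hMF hMg => ?_) rfl
      · rw [← hn]
        exact fx_finrank_lt F hD
      · exact hM M (hMF.trans (fx_le F _)) hMg
    by_cases hpd : p ∣ Nat.card (F ≃ₐ[ℚ] F)
    · have : Fact p.Prime := ⟨hp⟩
      obtain ⟨x, hx⟩ := exists_prime_orderOf_dvd_card' p hpd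
      have hc : Nat.card (Subgroup.zpowers x) = p := by rw [Nat.card_zpowers, hx]
      refine h' F hF (Subgroup.zpowers x) hc (hstep _ ?_)
      intro h0
      rw [h0, Subgroup.card_bot] at hc
      exact hp.one_lt.ne hc
    · refine reduce hp P h F fun M hMF hMg => ?_
      by_cases hMe : M = F
      · subst hMe
        exact hM M le_rfl hMg hpd
      · have hlt : Module.finrank ℚ M < Module.finrank ℚ F := by
          have hfd : FiniteDimensional ℚ M :=
            FiniteDimensional.of_injective (inclusion hMF).toLinearMap (inclusion hMF).injective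
          refine lt_of_le_of_ne ?_ ?_
          · exact LinearMap.finrank_le_finrank_of_injective
              (f := (inclusion hMF).toLinearMap) (inclusion hMF).injective
          · intro he
            exact hMe (IntermediateField.eq_of_le_of_finrank_eq hMF he)
        have hfd : FiniteDimensional ℚ M :=
            FiniteDimensional.of_injective (inclusion hMF).toLinearMap (inclusion hMF).injective
        refine ih _ ?_ M (fun N hN hNg => hM N (hN.trans hMF) hNg) rfl
        rw [← hn]
        exact hlt

end Pool.Agent.X27.Cln
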