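import Pool.Agent.X27.Cln.Norm

set_option autoImplicit false
set_option linter.unusedSectionVars false

/-! Norm relations in composita. -/

namespace Pool.Agent.X27.Cln

open NumberField Ideal Pool.Agent.H471R2 IntermediateField

section
variable {F L : Type} [Field F] [NumberField F] [Field L] [NumberField L] [Algebra F L]

/-- The embedding. -/
noncomputable abbrev emb (F L : Type) [Field F] [NumberField F] [Field L] [NumberField L]
    [Algebra F L] : F →ₐ[ℚ] L := IsScalarTower.toAlgHom ℚ F L

/-- The compositum of the image of the fixed field of `D` and `E`. -/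
noncomputable def comp (D : Subgroup (F ≃ₐ[ℚ] F)) (E : IntermediateField ℚ L) : IntermediateField ℚ L :=
  (fixedField D).map (emb F L) ⊔ E

theorem galois_comp (D : Subgroup (F ≃ₐ[ℚ] F)) (E : IntermediateField ℚ L)
    (h : (emb F L).fieldRange ⊔ E = ⊤) : IsGalois (comp D E) L := by
  set M : IntermediateField ℚ L := (fixedField D).map (emb F L) with hM
  have hMF : M ≤ (emb F L).fieldRange := by
    rintro _ ⟨x, _, rfl⟩
    exact ⟨x, rfl⟩
  have hMN : M ≤ comp D E := le_sup_left
  let K : IntermediateField M L := extendScalars hMF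
  let N : IntermediateField M L := extendScalars hMN
  have hgal : IsGalois (fixedField D) F := IsGalois.of_fixed_field F D
  have hK : IsGalois M K := by
    let f : fixedField D ≃+* M := ((fixedField D).equivMap (emb F L)).toRingEquiv
    let g : F ≃+* K := (AlgEquiv.ofInjectiveField (emb F L)).toRingEquiv
    refine IsGalois.of_equiv_equiv (F := fixedField D) (E := F) (f := f) (g := g) ?_
    ext x
    rfl
  have hfd : FiniteDimensional M K := by
    have : FiniteDimensional M L := inferInstance
    infer_instance
  have hsup : K ⊔ N = ⊤ := by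
    rw [← restrictScalars_eq_top_iff (K := ℚ), eq_top_iff, ← h]
    refine sup_le ?_ ?_
    · intro x hx
      have : x ∈ K := hx
      exact (le_sup_left : K ≤ K ⊔ N) this
    · intro x hx
      have : x ∈ N := (le_sup_right : E ≤ comp D E) hx
      exact (le_sup_right : N ≤ K ⊔ N) this
  have hN : IsGalois N L := IsGalois.sup_right K N hsup
  let f : N ≃+* comp D E :=
    { toFun := fun x => ⟨x.1, x.2⟩
      invFun := fun x => ⟨x.1, x.2⟩
      left_inv := fun _ => rfl
      right_inv := fun _ => rfl
      map_mul' := fun _ _ => rfl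
      map_add' := fun _ _ => rfl }
  refine IsGalois.of_equiv_equiv (F := N) (E := L) (f := f) (g := RingEquiv.refl L) ?_
  ext x
  rfl

theorem fixed_comp (D : Subgroup (F ≃ₐ[ℚ] F)) (E : IntermediateField ℚ L)
    (h : (emb F L).fieldRange ⊔ E = ⊤) : fixedField (comp D E).fixingSubgroup = comp D E := by
  have hgal := galois_comp D E h
  apply le_antisymm
  · intro x hx
    rw [mem_fixedField_iff] at hx
    have h1 : x ∈ Set.range (algebraMap (comp D E) L) := by
      rw [IsGalois.mem_range_algebraMap_iff_fixed]
      intro f
      refine hx (f.restrictScalars ℚ) ?_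
      rw [IntermediateField.mem_fixingSubgroup_iff]
      intro y hy
      exact f.commutes ⟨y, hy⟩
    obtain ⟨y, rfl⟩ := h1
    exact y.2
  · exact (le_iff_le _ _).2 le_rfl

/-- An automorphism of `L` which fixes `F^Γ` comes on `F` from `Γ`. -/
theorem restrict_exists (Γ : Subgroup (F ≃ₐ[ℚ] F)) (E : IntermediateField ℚ L) (g : L ≃ₐ[ℚ] L)
    (hg : g ∈ (comp Γ E).fixingSubgroup) :
    ∃ γ ∈ Γ, ∀ x : F, g (algebraMap F L x) = algebraMap F L (γ x) := by
  have hgal : IsGalois (fixedField Γ) F := IsGalois.of_fixed_field F Γ
  rw [IntermediateField.mem_fixingSubgroup_iff] at hg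
  let τ : F →ₐ[fixedField Γ] L :=
    { toRingHom := g.toRingEquiv.toRingHom.comp (algebraMap F L)
      commutes' := by
        intro r
        change g (algebraMap F L (algebraMap (fixedField Γ) F r)) = algebraMap (fixedField Γ) L r
        have h1 : algebraMap (fixedField Γ) L r = algebraMap F L (algebraMap (fixedField Γ) F r) := rfl
        rw [h1]
        apply hg
        exact (le_sup_left : (fixedField Γ).map (emb F L) ≤ comp Γ E) ⟨r.1, r.2, rfl⟩ }
  let γ0 := Normal.algHomEquivAut (fixedField Γ) L F τ
  have h1 : (Normal.algHomEquivAut (fixedField Γ) L F).symm γ0 = τ := Equiv.symm_apply_apply _ _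
  refine ⟨γ0.restrictScalars ℚ, ?_, fun x => ?_⟩
  · have hm : γ0.restrictScalars ℚ ∈ (fixedField Γ).fixingSubgroup := by
      rw [IntermediateField.mem_fixingSubgroup_iff]
      intro x hx
      exact γ0.commutes ⟨x, hx⟩
    exact (fixingSubgroup_fixedField Γ).le hm
  · have h2 := DFunLike.congr_fun h1 x
    exact h2.symm

/-- Partitions carry over to composita. -/
theorem isPart_comp {ι : Type} {Γ : Subgroup (F ≃ₐ[ℚ] F)} {D : ι → Subgroup (F ≃ₐ[ℚ] F)}
    (hp : IsPart Γ D) (E : IntermediateField ℚ L) (h : (emb F L).fieldRange ⊔ E = ⊤) :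
    IsPart (comp Γ E).fixingSubgroup (fun i => (comp (D i) E).fixingSubgroup) := by
  have hE : ∀ (D' : Subgroup (F ≃ₐ[ℚ] F)) (g : L ≃ₐ[ℚ] L), g ∈ (comp D' E).fixingSubgroup →
      ∀ x ∈ E, g x = x := by
    intro D' g hg x hx
    rw [IntermediateField.mem_fixingSubgroup_iff] at hg
    exact hg x ((le_sup_right : E ≤ comp D' E) hx)
  refine ⟨fun i => ?_, fun g hg hg1 => ?_⟩
  · apply IntermediateField.fixingSubgroup_antitone
    refine sup_le_sup_right ?_ E
    apply IntermediateField.map_mono
    intro x hx
    rw [mem_fixedField_iff] at hx ⊢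
    exact fun f hf => hx f (hp.1 i hf)
  · obtain ⟨γ, hγ, hγg⟩ := restrict_exists Γ E g hg
    have hne : γ ≠ 1 := by
      rintro rfl
      apply hg1
      have h1 : (⊤ : IntermediateField ℚ L) ≤ fixedField (Subgroup.zpowers g) := by
        rw [← h]
        refine sup_le ?_ ?_
        · rintro _ ⟨x, rfl⟩
          rw [mem_fixedField_iff]
          intro f hf
          have h2 : Subgroup.zpowers g ≤ (emb F L).fieldRange.fixingSubgroup := by
            rw [Subgroup.zpowers_le, IntermediateField.mem_fixingSubgroup_iff]
            rintro _ ⟨y, rfl⟩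
            exact hγg y
          exact (IntermediateField.mem_fixingSubgroup_iff _ f).1 (h2 hf) _ ⟨x, rfl⟩
        · intro x hx
          rw [mem_fixedField_iff]
          intro f hf
          have h2 : Subgroup.zpowers g ≤ E.fixingSubgroup := by
            rw [Subgroup.zpowers_le, IntermediateField.mem_fixingSubgroup_iff]
            exact hE Γ g hg
          exact (IntermediateField.mem_fixingSubgroup_iff _ f).1 (h2 hf) _ hx
      ext x
      have h2 := h1 (show x ∈ (⊤ : IntermediateField ℚ L) from trivial)
      rw [mem_fixedField_iff] at h2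
      exact h2 g (Subgroup.mem_zpowers g)
    have hiff : ∀ i, g ∈ (comp (D i) E).fixingSubgroup ↔ γ ∈ D i := by
      intro i
      constructor
      · intro hgi
        rw [IntermediateField.mem_fixingSubgroup_iff] at hgi
        rw [← fixingSubgroup_fixedField (D i), IntermediateField.mem_fixingSubgroup_iff]
        intro x hx
        have h2 := hgi (algebraMap F L x)
          ((le_sup_left : (fixedField (D i)).map (emb F L) ≤ comp (D i) E) ⟨x, hx, rfl⟩)
        rw [hγg] at h2
        exact (algebraMap F L).injective h2
      · intro hγi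
        have h3 : comp (D i) E ≤ fixedField (Subgroup.zpowers g) := by
          refine sup_le ?_ ?_
          · rintro _ ⟨x, hx, rfl⟩
            rw [mem_fixedField_iff]
            intro f hf
            have h2 : Subgroup.zpowers g ≤ ((fixedField (D i)).map (emb F L)).fixingSubgroup := by
              rw [Subgroup.zpowers_le, IntermediateField.mem_fixingSubgroup_iff]
              rintro _ ⟨y, hy, rfl⟩
              change g (algebraMap F L y) = algebraMap F L y
              rw [hγg]
              congr 1
              exact (mem_fixedField_iff _ _).1 hy γ hγi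
            exact (IntermediateField.mem_fixingSubgroup_iff _ f).1 (h2 hf) _ ⟨x, hx, rfl⟩
          · intro x hx
            rw [mem_fixedField_iff]
            intro f hf
            have h2 : Subgroup.zpowers g ≤ E.fixingSubgroup := by
              rw [Subgroup.zpowers_le, IntermediateField.mem_fixingSubgroup_iff]
              exact hE Γ g hg
            exact (IntermediateField.mem_fixingSubgroup_iff _ f).1 (h2 hf) _ hx
        rw [IntermediateField.mem_fixingSubgroup_iff]
        intro x hx
        exact (mem_fixedField_iff _ _).1 (h3 hx) g (Subgroup.mem_zpowers g)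
    obtain ⟨i, hi, hu⟩ := hp.2 γ hγ hne
    exact ⟨i, (hiff i).2 hi, fun j hj => hu j ((hiff j).1 hj)⟩

theorem card_congr' {A B : Type} [Field A] [NumberField A] [Field B] [NumberField B] (e : A ≃+* B) :
    Nat.card (ClassGroup (𝓞 A)) = Nat.card (ClassGroup (𝓞 B)) :=
  Nat.card_congr (ClassGroup.mulEquiv (RingOfIntegers.mapRingEquiv e)).toEquiv

/-- The inequality for the compositum of `F` and `E`. -/
theorem padic_le_comp {ι : Type} [Fintype ι] [Nonempty ι] {Γ : Subgroup (F ≃ₐ[ℚ] F)}
    {D : ι → Subgroup (F ≃ₐ[ℚ] F)} (hp : IsPart Γ D) (E : IntermediateField ℚ L)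
    (h : (emb F L).fieldRange ⊔ E = ⊤) {p : ℕ} [Fact p.Prime] (hk : ¬ p ∣ Fintype.card ι - 1) :
    padicValNat p (Nat.card (ClassGroup (𝓞 L))) ≤
      ∑ i, padicValNat p (Nat.card (ClassGroup (𝓞 (comp (D i) E)))) := by
  refine (padic_le (isPart_comp hp E h) hk).trans (le_of_eq ?_)
  refine Finset.sum_congr rfl fun i _ => ?_
  congr 1
  exact card_congr' (equivOfEq (fixed_comp (D i) E h)).toRingEquiv

end

end Pool.Agent.X27.Cln
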